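import Pool.Agent.H33.FUL.Lbl
import Pool.Agent.H72.EXW.Full

/-!
# Entropies of the straight images

`StH.zero`: the last coordinate has a constant label. `StH.bse`: a label of a coordinate of the base
over the other coordinates of the base bounds the entropy of the digits of the base in the family.
`StH.ext`: the entropy of the digits of the straight image bounds the entropy of the digits of
`x n - κ x k`, given the base.
-/

set_option autoImplicit false

namespace Pool.FUL33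

open Finset Real MvPolynomial
open Pool.Agent.H49.Ent Pool.Agent.H32.Dense Pool.STK Pool.KA Pool.KSAT Pool.K2S Pool.PB Pool.S6C
open Pool.GEN Pool.REX Pool.REX83 Pool.NFT33 Pool.TOP
open Pool.UNJ (ceI)
open Pool.EXW (abs_floor_sub chain_le one_cell)

variable {m N n' J : ℕ}

theorem tv {F : Fam m J} {v : Vz m} {ω ω' : F.Ω} (eZ : (v.win F).Z ω = (v.win F).Z ω')
    (eT : F.T ω % 2 ^ (J - v.B J) = F.T ω' % 2 ^ (J - v.B J)) : F.W ω = F.W ω' := by
  have a2 : (v.y J F ω, F.c (v.B J) ω) = (v.y J F ω', F.c (v.B J) ω') := eZ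
  have a3 : F.c (v.B J) ω = F.c (v.B J) ω' := congrArg Prod.snd a2
  have a4 : F.T1 (v.B J) ω = F.T1 (v.B J) ω' := congrArg (fun s => s.1.1) a3
  have a5 : F.Z ω = F.Z ω' := congrArg Prod.snd a3
  have a6 : F.T ω / 2 ^ (J - v.B J) = F.T ω' / 2 ^ (J - v.B J) := a4
  have a7 : F.T ω = F.T ω' := by
    rw [← Nat.div_add_mod (F.T ω) (2 ^ (J - v.B J)), ← Nat.div_add_mod (F.T ω') (2 ^ (J - v.B J)),
      a6, eT]
  exact Prod.ext a7 a5

theorem log_2p (J c : ℕ) (x : ℝ) (hx : 0 < x) (h : x ≤ c * 2 ^ J) (hc : 0 < c) :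
    Real.log x ≤ J * Real.log 2 + Real.log c := by
  have hc' : (0 : ℝ) < c := by exact_mod_cast hc
  refine (Real.log_le_log hx h).trans (le_of_eq ?_)
  rw [Real.log_mul hc'.ne' (by positivity), Real.log_pow, add_comm]

/-- A bound of the conditional entropy of digits. -/
theorem ch_dg {Ω : Type} [Fintype Ω] {μ : Ω → ℝ} (hμ : IsLaw μ) {S : Type*} (x : Ω → ℝ) (W : Ω → S)
    {L : ℝ} (h : ∀ ω ω', 0 < μ ω → 0 < μ ω' → W ω = W ω' → |x ω - x ω'| ≤ L) :
    CH μ (fun ω => ⌊x ω⌋) W ≤ Real.log (2 * (L + 1) + 1) := by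
  refine (CH_le_int hμ.nonneg hμ.sum_one (fun ω => ⌊x ω⌋) W (fun _ => L + 1)
    fun ω ω' h1 h2 h3 => ?_).trans (Ex_const hμ.sum_one _).le
  exact (abs_floor_sub _ _).trans (by linarith [h ω ω' h1 h2 h3])

section bs

variable {F : Fam m J} {v : Vz m} {φ : Fin N → Fin m} {k n : Fin m} {M : ℕ → ℕ}
  {ka : ∀ (J : ℕ) (F : Fam m J), v.κ J F → ℝ} {q : ℕ} {A : F.Ω → Prop}

/-- The last coordinate has a constant label. -/
theorem StH.zero (h : StH F v (ka J F) (M J) q A) (I' : Finset (Fin (N + 1)))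
    (K' e r w' ρ' : ℕ) {P' : ℕ} (hP : P' ≤ q) :
    Lb (winI v (nwS v φ k n M ka) F) I' (Fin.last N) K' e r w' ρ' P' A := by
  have h1 : (1 : ℝ) / 2 ^ q ≤ 1 / 2 ^ P' := inv_mono hP
  refine ⟨Unit, fun _ => (), fun _ => (), fun _ => 0, ⟨fun _ => ?_, fun _ b b' _ _ => ?_,
    fun _ _ => rfl, fun ω hω => ?_, fun ω hω => ?_, fun ω hω b _ o => ?_⟩⟩
  · rw [totalDegree_zero]
    exact Nat.zero_le _
  · rw [map_zero, map_zero]
  · rw [map_zero, sub_zero]
    exact (h.xl_le hω).trans h1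
  · have e1 : ∑ o, bd (winI v (nwS v φ k n M ka) F) ω o *
        eval (bt (winI v (nwS v φ k n M ka) F) ω)
          (pderiv o (0 : MvPolynomial (Option (Fin (N + 1))) ℝ)) = 0 := by
      refine Finset.sum_eq_zero fun o _ => ?_
      rw [map_zero, map_zero, mul_zero]
    rw [e1, sub_zero]
    refine (h.dl_le hω).trans ?_
    have h2 : (1 : ℝ) / 2 ^ (q + 1) ≤ 1 / 2 ^ P' := inv_mono (by omega)
    refine h2.trans (div_le_div_of_nonneg_right (one_le_pow₀ (by norm_num)) (by positivity))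
  · rw [map_zero, map_zero, abs_zero]
    positivity

/-- The digits of the coordinates of the base. -/
theorem StH.flb (h : StH F v (ka J F) (M J) q A) {ω : F.Ω} (hω : A ω) (j : Fin N) :
    (winI v (nwS v φ k n M ka) F).X (J - v.B J) ω j.castSucc =
      ⌊(2 : ℝ) ^ J * F.x ω (φ j)⌋ - 2 ^ (J - v.B J) * fl (v.B J) (F.x1 (v.B J) ω) (φ j) := by
  have hB := (v.floor_le J).1
  have e2 : (2 : ℝ) ^ J = 2 ^ (J - v.B J) * 2 ^ v.B J := by rw [← pow_add, Nat.sub_add_cancel hB]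
  have h1 : (winI v (nwS v φ k n M ka) F).X (J - v.B J) ω j.castSucc =
    ⌊(2 : ℝ) ^ (J - v.B J) * (winI v (nwS v φ k n M ka) F).x ω j.castSucc⌋ := rfl
  rw [h1, h.xb hω, win_x]
  have e3 : (2 : ℝ) ^ (J - v.B J) * (2 ^ v.B J * F.x ω (φ j) -
      (fl (v.B J) (F.x1 (v.B J) ω) (φ j) : ℝ)) = 2 ^ J * F.x ω (φ j) -
      ((2 ^ (J - v.B J) * fl (v.B J) (F.x1 (v.B J) ω) (φ j) : ℤ) : ℝ) := by
    rw [e2]
    push_cast
    ring
  rw [e3, Int.floor_sub_intCast]

/-- **A label of a coordinate of the base** bounds the entropy of the base. -/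
theorem StH.bse (h : StH F v (ka J F) (M J) q A) {B : F.Ω → Prop} (hB : Sub B A)
    (hPB : 0 < Pe F.p B) {i : Fin N} {I' : Finset (Fin (N + 1))} (hI' : Fin.last N ∉ I')
    (hi : i.castSucc ∉ I') {K' e w' W ρ' P' : ℕ} {V : Type}
    {z : PtT (winI v (nwS v φ k n M ka) F) → V} {z' : LnT (winI v (nwS v φ k n M ka) F) → V}
    {G : V → MvPolynomial (Option (Fin (N + 1))) ℝ}
    (hL : LbOK (winI v (nwS v φ k n M ka) F) I' i.castSucc K' e (J - v.B J) w' ρ' P' A z z' G)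
    (hρ : ρ' ≤ J - v.B J) (hP : P' ≤ J - v.B J) {u : ℕ} (hu : u ≤ J)
    {yl : LnT F → Option (V × (v.win F).ζ)} (hyl : ∀ ω, B ω → yl (slam F W ω) =
      some (z' (slam (winI v (nwS v φ k n M ka) F) w' ω), (v.win F).Z ω)) {E : ℝ}
    (hE : E ≤ CH (Pool.Agent.H49.Ent.cond F.p B True)
      (fun ω => ceI (univ.image φ) (fun _ => J) (F.x ω))
      (fun ω => (ceI (univ.image φ) (fun _ => u) (F.x ω), yl (slam F W ω), F.W ω))) :
    E ≤ (N - 1) * (((J - u : ℕ) : ℝ) * Real.log 2 + Real.log 5) +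
      ((((J - v.B J : ℕ) : ℝ) - P' + e) * Real.log 2 + Real.log (2 * (N + 1 : ℕ) + 9)) := by
  classical
  have hq := isLaw_cond F.isLaw hPB
  have h0 := hq.nonneg
  obtain ⟨μ, hμ⟩ : ∃ μ, μ = Pool.Agent.H49.Ent.cond F.p B True := ⟨_, rfl⟩
  rw [← hμ] at hE hq h0
  have hμB : ∀ ω, 0 < μ ω → B ω := fun ω hω => by
    rw [hμ] at hω
    exact of_condp hω
  obtain ⟨C, hC⟩ : ∃ C : F.Ω → _, C = fun ω =>
    (ceI (univ.image φ) (fun _ => u) (F.x ω), yl (slam F W ω), F.W ω) := ⟨_, rfl⟩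
  rw [← hC] at hE
  have hCd : ∀ ω ω', 0 < μ ω → 0 < μ ω' → C ω = C ω' →
      (∀ j, ⌊(2 : ℝ) ^ u * F.x ω (φ j)⌋ = ⌊(2 : ℝ) ^ u * F.x ω' (φ j)⌋) ∧
      z' (slam (winI v (nwS v φ k n M ka) F) w' ω) =
        z' (slam (winI v (nwS v φ k n M ka) F) w' ω') ∧ (v.win F).Z ω = (v.win F).Z ω' ∧
      F.T ω = F.T ω' := by
    intro ω ω' hω hω' e
    rw [hC] at e
    have e1 := Prod.ext_iff.1 e
    have e2 := Prod.ext_iff.1 e1.2
    refine ⟨fun j => ?_, ?_⟩
    · have e3 := congrFun e1.1 (φ j)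
      unfold ceI at e3
      have hj : φ j ∈ univ.image φ := mem_image_of_mem _ (mem_univ _)
      simp only [if_pos hj] at e3
      exact e3
    · have e4 := e2.1
      simp only at e4
      rw [hyl ω (hμB ω hω), hyl ω' (hμB ω' hω')] at e4
      have e5 := Prod.ext_iff.1 (Option.some.inj e4)
      have e6 : F.W ω = F.W ω' := e2.2
      exact ⟨e5.1, e5.2, (Prod.ext_iff.1 e6).1⟩
  obtain ⟨X, hX⟩ : ∃ X : Fin N → F.Ω → ℤ, X = fun j ω => ⌊(2 : ℝ) ^ J * F.x ω (φ j)⌋ := ⟨_, rfl⟩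
  have hXj : ∀ j ω, X j ω = ⌊(2 : ℝ) ^ J * F.x ω (φ j)⌋ := fun j ω => by rw [hX]
  obtain ⟨Y, hY⟩ : ∃ Y : Fin N → F.Ω → ℤ, Y = fun j ω => if j = i then 0 else X j ω := ⟨_, rfl⟩
  have hYi : ∀ ω, Y i ω = 0 := fun ω => by
    rw [hY]
    exact if_pos rfl
  have hYj : ∀ j ω, j ≠ i → Y j ω = X j ω := fun j ω hj => by
    rw [hY]
    exact if_neg hj
  -- the chain
  have k1 : CH μ (fun ω => ceI (univ.image φ) (fun _ => J) (F.x ω)) C ≤
      CH μ (fun ω => (X i ω, fun j => Y j ω)) C := by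
    refine CH_mono_left h0 fun ω ω' _ _ e => ?_
    have e1 := Prod.ext_iff.1 (Prod.ext_iff.1 e).1
    funext l
    unfold ceI
    by_cases hl : l ∈ univ.image φ
    · simp only [if_pos hl]
      obtain ⟨j, -, rfl⟩ := mem_image.1 hl
      rw [← hXj, ← hXj]
      by_cases hj : j = i
      · rw [hj]
        exact e1.1
      · rw [← hYj j ω hj, ← hYj j ω' hj]
        exact congrFun e1.2 j
    · simp only [if_neg hl]
  rw [CH_chain h0 (X i) (fun ω j => Y j ω) C] at k1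
  -- the other coordinates
  have k2 := chain_le hq Y C (fun j => if j = i then 0 else
    ((J - u : ℕ) : ℝ) * Real.log 2 + Real.log 5) (fun j => by
      by_cases hj : j = i
      · rw [if_pos hj]
        refine (CH_eq_zero h0 fun ω ω' _ _ _ => ?_).le
        rw [hj, hYi, hYi]
      · rw [if_neg hj]
        have e1 : Y j = fun ω => ⌊(2 : ℝ) ^ J * F.x ω (φ j)⌋ := by
          funext ω
          rw [hYj j ω hj, hXj]
        rw [e1]
        refine (ch_dg hq (fun ω => (2 : ℝ) ^ J * F.x ω (φ j)) _ (L := 2 ^ (J - u))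
          fun ω ω' hω hω' e => ?_).trans (log_2p (J - u) 5 _ (by positivity) ?_ (by norm_num))
        · have e2 := (hCd ω ω' hω hω' (Prod.ext_iff.1 e).2).1 j
          have e3 := (Int.abs_sub_lt_one_of_floor_eq_floor e2).le
          have e4 : (2 : ℝ) ^ J = 2 ^ (J - u) * 2 ^ u := by rw [← pow_add, Nat.sub_add_cancel hu]
          have e5 : (2 : ℝ) ^ J * F.x ω (φ j) - 2 ^ J * F.x ω' (φ j) =
              2 ^ (J - u) * (2 ^ u * F.x ω (φ j) - 2 ^ u * F.x ω' (φ j)) := by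
            rw [e4]
            ring
          rw [e5, abs_mul, abs_of_pos (by positivity : (0 : ℝ) < 2 ^ (J - u))]
          calc (2 : ℝ) ^ (J - u) * |2 ^ u * F.x ω (φ j) - 2 ^ u * F.x ω' (φ j)| ≤
              2 ^ (J - u) * 1 := mul_le_mul_of_nonneg_left e3 (by positivity)
            _ = 2 ^ (J - u) := mul_one _
        · have : (1 : ℝ) ≤ 2 ^ (J - u) := one_le_pow₀ (by norm_num)
          push_cast
          linarith)
  have k3 : ∑ j : Fin N, (if j = i then (0 : ℝ) else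
      ((J - u : ℕ) : ℝ) * Real.log 2 + Real.log 5) =
      (N - 1) * (((J - u : ℕ) : ℝ) * Real.log 2 + Real.log 5) := by
    obtain ⟨b, hb⟩ : ∃ b : ℝ, b = ((J - u : ℕ) : ℝ) * Real.log 2 + Real.log 5 := ⟨_, rfl⟩
    rw [← hb]
    have e1 : ∀ j : Fin N, (if j = i then (0 : ℝ) else b) = b - (if j = i then b else 0) := by
      intro j
      split_ifs
      · rw [sub_self]
      · rw [sub_zero]
    rw [Finset.sum_congr rfl fun j _ => e1 j, Finset.sum_sub_distrib, Finset.sum_ite_eq' univ i,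
      if_pos (mem_univ i), Finset.sum_const, Finset.card_univ, Fintype.card_fin, nsmul_eq_mul]
    ring
  rw [k3] at k2
  -- the coordinate of the label
  have k4 : CH μ (X i) (fun ω => ((fun j => Y j ω), C ω)) ≤
      CH μ (fun ω => ⌊(2 : ℝ) ^ (J - v.B J) *
        (winI v (nwS v φ k n M ka) F).x ω i.castSucc⌋) (fun ω => ((fun j => Y j ω), C ω)) := by
    refine CH_mono_left h0 fun ω ω' hω hω' e => ?_
    have e1 := Prod.ext_iff.1 e
    have e2 := hCd ω ω' hω hω' (Prod.ext_iff.1 e1.2).2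
    have e3 : (winI v (nwS v φ k n M ka) F).X (J - v.B J) ω i.castSucc =
      (winI v (nwS v φ k n M ka) F).X (J - v.B J) ω' i.castSucc := e1.1
    rw [h.flb (hB ω (hμB ω hω)), h.flb (hB ω' (hμB ω' hω')), win_fl e2.2.2.1] at e3
    rw [hXj, hXj]
    linarith
  have hdig : ∀ ω ω' : F.Ω, 0 < μ ω → 0 < μ ω' → (fun j => Y j ω) = (fun j => Y j ω') →
      C ω = C ω' → ∀ j, j ≠ i →
      (winI v (nwS v φ k n M ka) F).X (J - v.B J) ω j.castSucc =
        (winI v (nwS v φ k n M ka) F).X (J - v.B J) ω' j.castSucc := by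
    intro ω ω' hω hω' e1 e2 j hji
    obtain ⟨c1, c2, c3, c4⟩ := hCd ω ω' hω hω' e2
    have c5 : Y j ω = Y j ω' := congrFun e1 j
    rw [hYj j ω hji, hYj j ω' hji, hXj, hXj] at c5
    have c6 := h.flb (φ := φ) (k := k) (n := n) (hB ω (hμB ω hω)) j
    have c7 := h.flb (φ := φ) (k := k) (n := n) (hB ω' (hμB ω' hω')) j
    rw [c5, win_fl c3] at c6
    exact c6.trans c7.symm
  have k5 : CH μ (fun ω => ⌊(2 : ℝ) ^ (J - v.B J) *
        (winI v (nwS v φ k n M ka) F).x ω i.castSucc⌋) (fun ω => ((fun j => Y j ω), C ω)) ≤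
      (((J - v.B J : ℕ) : ℝ) - P' + e) * Real.log 2 + Real.log (2 * (N + 1 : ℕ) + 9) := by
    refine one_cell (F := winI v (nwS v φ k n M ka) F) (A := B) (z := z) (z' := z') (G := G)
      (I := I') (u := J - v.B J) ⟨hL.deg, hL.dep,
      fun ω hω => hL.cls ω (hB ω hω), fun ω hω => hL.pos ω (hB ω hω),
      fun ω hω => hL.vel ω (hB ω hω), fun ω hω => hL.lip ω (hB ω hω)⟩ hρ hP hq hμB
      fun ω ω' hω hω' e => ?_
    have e1 := Prod.ext_iff.1 e
    obtain ⟨c1, c2, c3, c4⟩ := hCd ω ω' hω hω' e1.2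
    refine ⟨fun l hl => ?_, c2, ?_⟩
    · have hl' : l ≠ Fin.last N := fun hc => hI' (hc ▸ hl)
      obtain ⟨j, rfl⟩ : ∃ j : Fin N, l = j.castSucc :=
        ⟨l.castPred hl', (Fin.castSucc_castPred l hl').symm⟩
      have hji : j ≠ i := fun hc => hi (hc ▸ hl)
      exact hdig ω ω' hω hω' e1.1 e1.2 j hji
    · show F.T ω % 2 ^ (J - v.B J) = F.T ω' % 2 ^ (J - v.B J)
      rw [c4]
  linarith

end bs

end Pool.FUL33
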