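import Pool.Agent.H33.FUL.Ord

/-!
# The entropy of the straight images of a class
-/

set_option autoImplicit false

namespace Pool.FUL33

open Finset Real MvPolynomial
open Pool.Agent.H49.Ent Pool.Agent.H32.Dense Pool.STK Pool.KA Pool.KSAT Pool.K2S Pool.PB Pool.S6C
open Pool.GEN Pool.REX Pool.REX83 Pool.NFT33 Pool.TOP

variable {m N J : ℕ}

/-- **The entropy of the digits of the straight images**, in a subclass. -/
theorem core (hF : FZX (N + 1)) {S : PCl m} (hS : S.Ne)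
    (hpos : ∀ (τ : ℝ) (J : ℕ) (F : Fam m J) (A : F.Ω → Prop), S.St τ J F A → 0 < Pe F.p A)
    {C₀ : ℝ} (hC₀ : 0 ≤ C₀) (htm : TmC S C₀) {N₀ : ℚ → ℚ → ℝ} {al : ℝ} {g₀ : ℝ → ℝ} (hal : 0 < al)
    (hg₀ : ∀ ε : ℝ, 0 < ε → 0 < g₀ ε) (hM : ActM N₀ al g₀) {v : Vz m} {φ : Fin N → Fin m}
    (hφ : Function.Injective φ) (i₀ : Fin N) (hB : ActB N₀ S (φ i₀)) {k n : Fin m} {M q : ℕ → ℕ}
    {ka : ∀ (J : ℕ) (F : Fam m J), v.κ J F → ℝ}
    (hst : Bas S (fun J F A => StH F v (ka J F) (M J) (q J) A))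
    {w₂ u v₀ Q m₀ C σ δ P ρ : ℝ} (hw₂ : v.b < w₂) (hwu : w₂ ≤ u) (hu1 : u < 1)
    (hful : Ful S (univ.image φ) w₂ u) (huw : 4 * (u - v.b) ≤ δ * (1 - v.b)) (hδ0 : 0 < δ)
    (hδ2 : δ ≤ 1 / 2) (hδσ : δ < σ) (hσ1 : σ ≤ 1)
    (hq : ∀ J, ⌊σ * ((J - v.B J : ℕ) : ℝ)⌋₊ ≤ q J) (hv₀ : v.b < v₀) (hv1 : v₀ ≤ 1)
    (hno : ∀ K, Bas S (fun J F A => ¬ LbR 0 F (bsk φ k) n K ⌊v₀ * J⌋₊ ⌊Q * J⌋₊ A))
    (hm₀ : ∀ J : ℕ, (M J : ℝ) ≤ m₀ * J + C) (hQ0 : 0 ≤ Q)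
    (hP : Q + m₀ < v.b + (P - δ / 8) * (1 - v.b)) (hρ : 0 < ρ) :
    ∃ S₁ : PCl m, S₁.Ne ∧ (∀ (τ : ℝ) (J : ℕ) (F : Fam m J) (A : F.Ω → Prop),
      S₁.St τ J F A → S.St τ J F A) ∧ Bas S₁ (fun J F A => ∃ ε : Fin (N + 1) → Fin (N + 1),
      ((N * (1 - δ) + (1 - P)) - ρ) * Real.log 2 * ((J - v.B J : ℕ) : ℝ) ≤
        CH (Pool.Agent.H49.Ent.cond F.p A True)
          (fun ω (j : Fin (N + 1)) => (winI v (nwS v φ k n M ka) F).X (J - v.B J) ω (ε j))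
          (fun ω => ((), (winI v (nwS v φ k n M ka) F).W ω))) := by
  classical
  have hb0 := v.b0
  have hb1 := v.b1
  have hc : 0 < 1 - v.b := by linarith
  have hposC : PosC S := fun τ J F A _ h => hpos τ J F A h
  have hposB : Bas S (fun _ F A => 0 < Pe F.p A) :=
    ⟨1, one_pos, 0, fun J _ F A hA => hpos 1 J F A hA⟩
  obtain ⟨T, L, hT, hTs, hL⟩ := lamw (WyI S v (nwS v φ k n M ka)) (wyi_ne hS)
  have hS₁ : (S.sl (slI v (nwS v φ k n M ka) T)).Ne := slI_ne v (nwS v φ k n M ka) hT hTs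
  have hTpos : ∀ (τ : ℝ) (J : ℕ) (F : Fam (N + 1) J) (A : F.Ω → Prop), T.St τ J F A →
      0 < Pe F.p A := fun τ J F A h => wyi_pos hpos τ J F A (hTs τ J F A h)
  have hTposB : Bas T (fun _ F A => 0 < Pe F.p A) :=
    ⟨1, one_pos, 0, fun J _ F A hA => hTpos 1 J F A hA⟩
  have hC' : 0 ≤ C₀ * (1 / (1 - v.b)) := by positivity
  have htm' : TmC T (C₀ * (1 / (1 - v.b))) := fun τ J F A h1 h2 =>
    wyi_tmC hC₀ htm τ J F A h1 (hTs τ J F A h2)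
  have hact0 := act_st (φ := φ) (k := k) (n := n) hposC hal.le i₀ hst
  have hact : ActB (NZR S (φ i₀) (al + 1) v.b) T i₀.castSucc := fun x y h1 h2 h3 h h4 =>
    Bas.sub hTs (hact0 x y h1 h2 h3 h h4)
  have hMr := hM.real hposC hal.le hB hb0 hb1
  have hg' : ∀ ε : ℝ, 0 < ε → 0 < (fun ε : ℝ => min (g₀ (ε / 2)) 1) ε := fun ε hε =>
    lt_min (hg₀ _ (half_pos hε)) one_pos
  obtain ⟨D, hDc, hD⟩ := wv_cover hL (φ := fun i : Fin (N + 1) => i) (κ := i₀.castSucc)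
    (fun w h0 h1 => hL.act hT hal (hMr.q hg') hact hTposB h0 h1)
  obtain ⟨w'', hw''⟩ : ∃ w'', w'' = min (min ((w₂ - v.b) / 2) ((v₀ - v.b) / 2)) δ := ⟨_, rfl⟩
  have a0 : 0 < w'' := by
    rw [hw'']
    exact lt_min (lt_min (by linarith) (by linarith)) hδ0
  have a1 : w'' ≤ (w₂ - v.b) / 2 := by
    rw [hw'']
    exact (min_le_left _ _).trans (min_le_left _ _)
  have a2 : w'' ≤ (v₀ - v.b) / 2 := by
    rw [hw'']
    exact (min_le_left _ _).trans (min_le_right _ _)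
  have a3 : w'' ≤ δ := by
    rw [hw'']
    exact min_le_right _ _
  have a4 : w'' * (1 - v.b) ≤ w'' := by
    calc w'' * (1 - v.b) ≤ w'' * 1 := mul_le_mul_of_nonneg_left (by linarith) a0.le
      _ = w'' := mul_one _
  obtain ⟨w', hw'D, hw'0, hw'1⟩ := (hDc.dense_compl ℝ).exists_between a0
  obtain ⟨σp, hWv, hσ0⟩ := hD w' hw'0 (by linarith) hw'D
  obtain ⟨-, -, hg, hct⟩ := hWv
  have hεb : Function.Bijective ((fun i : Fin (N + 1) => i) ∘ σp) := σp.bijective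
  have hord := order hεb hg (δ := δ) (σ := σ) (P := P) (by linarith) hδσ
    (fun I i r hI hi hr => base_le (k := k) (n := n) (M := M) (ka := ka) hS₁ hL hposB hst hφ
      (w₂ := w₂) (u := u) (w'' := w'') (e := δ / 8) (by linarith) hwu hu1 hful hw'1 a0
      (by linarith) (by linarith) (by linarith) (by linarith) huw (by linarith) hI hi)
    (fun I r => last_ge (φ := φ) (k := k) (n := n) (M := M) (ka := ka) hS₁ hL hst hσ1 hq I w' r)
    (fun I r hI => last_le (φ := φ) (k := k) (n := n) (M := M) (ka := ka) hS₁ hL hst (v₀ := v₀)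
      (Q := Q) (m₀ := m₀) (C := C) (w'' := w'') (e := δ / 8) hno (by linarith) hv1 hw'1 a0
      (by linarith) hm₀ hQ0 (by linarith) hP hI)
  have hex := vst_exa hF hT hC' htm' hL hal hg' hMr hTposB hεb.1 (fun j hj => by
    have h1 : ((fun i : Fin (N + 1) => i) ∘ σp) j = i₀.castSucc := hσ0 j hj
    rw [h1]
    exact hact) hw'0 (by linarith) hg hct hρ
  refine ⟨_, hS₁, fun _ _ _ _ h => h.1, (pull (S := S) (v := v)
    (f := nwS v φ k n M ka) hex).mono 0 fun J _ F A h => ?_⟩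
  refine ⟨(fun i : Fin (N + 1) => i) ∘ σp, le_trans ?_
    (h Unit (fun _ => ()) (fun _ => ()) fun _ _ => rfl)⟩
  refine mul_le_mul_of_nonneg_right (mul_le_mul_of_nonneg_right (by linarith)
    (Real.log_pos one_lt_two).le) (Nat.cast_nonneg _)

end Pool.FUL33
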