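import Pool.Agent.H33.FUL.Bse

/-!
# From the straight image to the family

`StH.ext`: the entropy of the digits of the straight image bounds the entropy of the digits of
`x n - κ x k`, given the base, from below.
-/

set_option autoImplicit false

namespace Pool.FUL33

open Finset Real MvPolynomial
open Pool.Agent.H49.Ent Pool.Agent.H32.Dense Pool.STK Pool.KA Pool.KSAT Pool.K2S Pool.PB Pool.S6C
open Pool.GEN Pool.REX Pool.REX83 Pool.NFT33 Pool.TOP
open Pool.UNJ (ceI)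
open Pool.EXW (abs_floor_sub chain_le one_cell)

variable {m N n' J : ℕ}

section ex

variable {F : Fam m J} {v : Vz m} {φ : Fin N → Fin m} {k n : Fin m} {M : ℕ → ℕ}
  {ka : ∀ (J : ℕ) (F : Fam m J), v.κ J F → ℝ} {q : ℕ} {A : F.Ω → Prop}

/-- **From the straight image to the family.** -/
theorem StH.ext (h : StH F v (ka J F) (M J) q A) (hPA : 0 < Pe F.p A)
    {ε : Fin (N + 1) → Fin (N + 1)} {S : Type} (c₁ : F.Ω → S) {E : ℝ}
    (hE : E ≤ CH (Pool.Agent.H49.Ent.cond F.p A True)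
      (fun ω (j : Fin (N + 1)) => (winI v (nwS v φ k n M ka) F).X (J - v.B J) ω (ε j))
      (fun ω => (c₁ ω, (winI v (nwS v φ k n M ka) F).W ω))) (R : ℕ) :
    E ≤ N * (((J - v.B J : ℕ) : ℝ) * Real.log 2 + Real.log 11) +
      Real.log (2 * (2 ^ J / (2 ^ M J * 2 ^ R) + 1) + 1) +
      CH (Pool.Agent.H49.Ent.cond F.p A True)
        (fun ω => ⌊(2 : ℝ) ^ R * (F.x ω n - ka J F (v.y J F ω) * F.x ω k)⌋)
        (fun ω => (ceI (univ.image φ) (fun _ => J) (F.x ω), (v.y J F ω, F.W ω))) := by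
  classical
  have hq := isLaw_cond F.isLaw hPA
  have hBJ := (v.floor_le J).1
  obtain ⟨μ, hμ⟩ : ∃ μ, μ = Pool.Agent.H49.Ent.cond F.p A True := ⟨_, rfl⟩
  rw [← hμ] at hE hq ⊢
  have h0 := hq.nonneg
  have hμA : ∀ ω, 0 < μ ω → A ω := fun ω hω => by
    rw [hμ] at hω
    exact of_condp hω
  obtain ⟨C, hC⟩ : ∃ C : F.Ω → _, C = fun ω =>
    (c₁ ω, (winI v (nwS v φ k n M ka) F).W ω) := ⟨_, rfl⟩
  rw [← hC] at hE
  have hCZ : ∀ ω ω', C ω = C ω' → (v.win F).Z ω = (v.win F).Z ω' ∧ F.W ω = F.W ω' := by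
    intro ω ω' e
    rw [hC] at e
    have e1 : (winI v (nwS v φ k n M ka) F).W ω = (winI v (nwS v φ k n M ka) F).W ω' :=
      (Prod.ext_iff.1 e).2
    have e2 : (v.win F).Z ω = (v.win F).Z ω' := (Prod.ext_iff.1 e1).2
    have e3 : F.T ω % 2 ^ (J - v.B J) = F.T ω' % 2 ^ (J - v.B J) := (Prod.ext_iff.1 e1).1
    exact ⟨e2, tv e2 e3⟩
  obtain ⟨X, hX⟩ : ∃ X : F.Ω → Fin N → ℤ, X = fun ω j =>
    (winI v (nwS v φ k n M ka) F).X (J - v.B J) ω j.castSucc := ⟨_, rfl⟩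
  obtain ⟨Y, hY⟩ : ∃ Y : F.Ω → ℤ, Y = fun ω =>
    ⌊(2 : ℝ) ^ (J - v.B J) * (winI v (nwS v φ k n M ka) F).x ω (Fin.last N)⌋ := ⟨_, rfl⟩
  obtain ⟨U, hU⟩ : ∃ U : F.Ω → ℤ, U = fun ω =>
    ⌊(2 : ℝ) ^ R * (F.x ω n - ka J F (v.y J F ω) * F.x ω k)⌋ := ⟨_, rfl⟩
  rw [← hU]
  -- the chain
  have k1 : CH μ (fun ω (j : Fin (N + 1)) =>
      (winI v (nwS v φ k n M ka) F).X (J - v.B J) ω (ε j)) C ≤
      CH μ (fun ω => (Y ω, X ω)) C := by
    refine CH_mono_left h0 fun ω ω' _ _ e => ?_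
    have e1 := Prod.ext_iff.1 (Prod.ext_iff.1 e).1
    have key : ∀ l : Fin (N + 1), (winI v (nwS v φ k n M ka) F).X (J - v.B J) ω l =
        (winI v (nwS v φ k n M ka) F).X (J - v.B J) ω' l := by
      intro l
      refine Fin.lastCases ?_ (fun i => ?_) l
      · have e2 : Y ω = Y ω' := e1.1
        rw [hY] at e2
        exact e2
      · have e2 : X ω = X ω' := e1.2
        rw [hX] at e2
        exact congrFun e2 i
    exact funext fun j => key (ε j)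
  rw [CH_chain h0 Y X C] at k1
  -- the base
  have k2 : CH μ X C ≤ N * (((J - v.B J : ℕ) : ℝ) * Real.log 2 + Real.log 11) := by
    have hp : (1 : ℝ) ≤ 2 ^ (J - v.B J) := one_le_pow₀ (by norm_num)
    refine (CH_le_vec h0 hq.sum_one X C (fun _ => 5 * 2 ^ (J - v.B J))
      fun ω ω' hω hω' _ j => ?_).trans ?_
    · have e1 : X ω j = ⌊(2 : ℝ) ^ (J - v.B J) *
          (winI v (nwS v φ k n M ka) F).x ω j.castSucc⌋ := by rw [hX]; rfl
      have e2 : X ω' j = ⌊(2 : ℝ) ^ (J - v.B J) *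
          (winI v (nwS v φ k n M ka) F).x ω' j.castSucc⌋ := by rw [hX]; rfl
      rw [e1, e2, h.xb (hμA ω hω), h.xb (hμA ω' hω')]
      refine (abs_floor_sub _ _).trans ?_
      have a1 := abs_le.1 (win_le2 (v := v) ω (φ j))
      have a2 := abs_le.1 (win_le2 (v := v) ω' (φ j))
      rw [← mul_sub, abs_mul, abs_of_pos (by positivity : (0 : ℝ) < 2 ^ (J - v.B J))]
      have a3 : |(v.win F).x ω (φ j) - (v.win F).x ω' (φ j)| ≤ 4 := by
        rw [abs_le]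
        constructor <;> linarith [a1.1, a1.2, a2.1, a2.2]
      have a4 := mul_le_mul_of_nonneg_left a3 (by positivity : (0 : ℝ) ≤ 2 ^ (J - v.B J))
      linarith
    · rw [Ex_const hq.sum_one]
      refine mul_le_mul_of_nonneg_left (log_2p (J - v.B J) 11 _ (by positivity) ?_
        (by norm_num)) (Nat.cast_nonneg N)
      push_cast
      linarith
  -- the last coordinate
  have k3 := CH_le_add h0 Y U (fun ω => (X ω, C ω))
  have k4 : CH μ Y (fun ω => (U ω, (X ω, C ω))) ≤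
      Real.log (2 * (2 ^ J / (2 ^ M J * 2 ^ R) + 1) + 1) := by
    rw [hY]
    refine ch_dg hq (fun ω => (2 : ℝ) ^ (J - v.B J) *
      (winI v (nwS v φ k n M ka) F).x ω (Fin.last N)) _ fun ω ω' hω hω' e => ?_
    have e1 := Prod.ext_iff.1 e
    have e2 := (hCZ ω ω' (Prod.ext_iff.1 e1.2).2).1
    have e3 : U ω = U ω' := e1.1
    rw [hU] at e3
    have hy : v.y J F ω = v.y J F ω' := wy e2
    have e4 := (Int.abs_sub_lt_one_of_floor_eq_floor e3).le
    rw [← mul_sub, abs_mul, abs_of_pos (by positivity : (0 : ℝ) < 2 ^ R)] at e4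
    rw [h.xl (hμA ω hω), h.xl (hμA ω' hω'), ← hy]
    rw [← hy] at e4
    have s1 := win_sub e2 n
    have s2 := win_sub e2 k
    obtain ⟨κ, hκ⟩ : ∃ κ, κ = ka J F (v.y J F ω) := ⟨_, rfl⟩
    rw [← hκ] at e4 ⊢
    have pM : (0 : ℝ) < 2 ^ M J := by positivity
    have pR : (0 : ℝ) < 2 ^ R := by positivity
    have pJ : (0 : ℝ) < 2 ^ J := by positivity
    have e5 : (2 : ℝ) ^ (J - v.B J) * (1 / 2 ^ M J * (v.win F).x ω n -
        κ / 2 ^ M J * (v.win F).x ω k) - 2 ^ (J - v.B J) * (1 / 2 ^ M J * (v.win F).x ω' n -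
        κ / 2 ^ M J * (v.win F).x ω' k) = 2 ^ J / 2 ^ M J *
        ((F.x ω n - κ * F.x ω k) - (F.x ω' n - κ * F.x ω' k)) := by
      have e6 : (2 : ℝ) ^ (J - v.B J) * (1 / 2 ^ M J * (v.win F).x ω n -
        κ / 2 ^ M J * (v.win F).x ω k) - 2 ^ (J - v.B J) * (1 / 2 ^ M J * (v.win F).x ω' n -
        κ / 2 ^ M J * (v.win F).x ω' k) = 1 / 2 ^ M J *
        (2 ^ (J - v.B J) * ((v.win F).x ω n - (v.win F).x ω' n)) - κ / 2 ^ M J *
        (2 ^ (J - v.B J) * ((v.win F).x ω k - (v.win F).x ω' k)) := by ring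
      rw [e6, s1, s2]
      ring
    rw [e5, abs_mul, abs_of_pos (by positivity : (0 : ℝ) < 2 ^ J / 2 ^ M J)]
    obtain ⟨D, hD⟩ : ∃ D, D = |F.x ω n - κ * F.x ω k - (F.x ω' n - κ * F.x ω' k)| := ⟨_, rfl⟩
    rw [← hD] at e4 ⊢
    have e7 : D ≤ 1 / 2 ^ R := by
      rw [le_div_iff₀ pR]
      linarith
    calc (2 : ℝ) ^ J / 2 ^ M J * D ≤ 2 ^ J / 2 ^ M J * (1 / 2 ^ R) :=
          mul_le_mul_of_nonneg_left e7 (by positivity)
      _ = 2 ^ J / (2 ^ M J * 2 ^ R) := by field_simp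
  have k5 : CH μ U (fun ω => (X ω, C ω)) ≤
      CH μ U (fun ω => (ceI (univ.image φ) (fun _ => J) (F.x ω), (v.y J F ω, F.W ω))) := by
    refine CH_mono_cond h0 fun ω ω' hω hω' e => ?_
    have e1 := Prod.ext_iff.1 e
    obtain ⟨e2, e3⟩ := hCZ ω ω' e1.2
    refine Prod.ext (funext fun l => ?_) (Prod.ext (wy e2) e3)
    unfold ceI
    by_cases hl : l ∈ univ.image φ
    · simp only [if_pos hl]
      obtain ⟨j, -, rfl⟩ := mem_image.1 hl
      have e4 : X ω = X ω' := e1.1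
      rw [hX] at e4
      have e5 : (winI v (nwS v φ k n M ka) F).X (J - v.B J) ω j.castSucc =
        (winI v (nwS v φ k n M ka) F).X (J - v.B J) ω' j.castSucc := congrFun e4 j
      rw [h.flb (hμA ω hω), h.flb (hμA ω' hω'), win_fl e2] at e5
      linarith
    · simp only [if_neg hl]
  linarith

end ex

end Pool.FUL33
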