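import Pool.Agent.H33.FUL.Cor
import Pool.Agent.H72.OWN.Low

/-!
# Fullness of the straight image

`fulI`: let the coordinates `φ i` be full near the window `w`, one of them active, and let there be
no closed labels of the coordinate `n` over them and the coordinate `k` with more than `s` digits
near the window `w`. Then for every closed slope `κ` of size at most `2 ^ (x J)` the first `r`
digits of `x n - κ x k` have the entropy `r - s`, given all digits of the coordinates `φ i` and any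
closed function at the window `w`, for `r ≤ 1 - x`.
-/

set_option autoImplicit false

namespace Pool.FUL33

open Finset Real MvPolynomial
open Pool.Agent.H49.Ent Pool.Agent.H32.Dense Pool.STK Pool.KA Pool.KSAT Pool.K2S Pool.PB Pool.S6C
open Pool.GEN Pool.REX Pool.REX83 Pool.NFT33 Pool.TOP
open Pool.UNJ (ceI)
open Pool.LBT (ThrOf)
open Pool.OWN72 (bas_low)

variable {m N J : ℕ}

/-- A closed function and a slope. -/
structure SD (F : Fam m J) : Type where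
  z : PtT F → Option F.Ω
  z' : LnT F → Option F.Ω
  ka : Option F.Ω → ℝ

instance (F : Fam m J) : Nonempty (SD F) := ⟨⟨fun _ => none, fun _ => none, fun _ => 0⟩⟩

/-- The value of the closed function. -/
noncomputable def SD.y {F : Fam m J} (d : SD F) (w : ℝ) (ω : F.Ω) : Option F.Ω := d.z' (slam F ⌊w * J⌋₊ ω)

/-- The window with the closed function. -/
noncomputable def vz (w : ℝ) (h0 : 0 ≤ w) (h1 : w < 1) (d : ∀ (J : ℕ) (F : Fam m J), SD F) :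
    Vz m where
  b := w
  p := 0
  b0 := h0
  b1 := h1
  p0 := le_rfl
  p1 := one_pos
  κ _ F := Option F.Ω
  y J F ω := (d J F).y w ω
  line J F ω ω' h := by
    unfold SD.y
    rw [h]

/-- The datum is closed on the event and the slope has the size `2 ^ (c J)`. -/
def VD (w c : ℝ) (J : ℕ) (F : Fam m J) (d : SD F) (A : F.Ω → Prop) : Prop :=
  (∀ ω, A ω → d.z (ptr F J ω) = d.y w ω) ∧ ∀ ω, A ω → |d.ka (d.y w ω)| ≤ (2 : ℝ) ^ (c * J)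

theorem vd_st {w c : ℝ} (h0 : 0 ≤ w) (h1 : w < 1) (hc : 0 ≤ c) {σ : ℝ} (hσ : 0 ≤ σ)
    {d : ∀ (J : ℕ) (F : Fam m J), SD F} {F : Fam m J} {A : F.Ω → Prop}
    (h : VD w c J F (d J F) A) : StH F (vz w h0 h1 d) (d J F).ka (⌈(c + σ) * J⌉₊ + 2)
      ⌊σ * J⌋₊ A := by
  have hJ0 : (0 : ℝ) ≤ J := Nat.cast_nonneg J
  refine ⟨fun ω hω => ?_, fun ω ω' hω hω' e => ?_⟩
  · have h2 := h.2 ω hω
    have e1 : (vz w h0 h1 d).y J F ω = (d J F).y w ω := rfl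
    rw [e1]
    have h3 : (1 : ℝ) ≤ (2 : ℝ) ^ (c * J) := Real.one_le_rpow (by norm_num) (mul_nonneg hc hJ0)
    have h4 : 1 + |(d J F).ka ((d J F).y w ω)| ≤ 2 * (2 : ℝ) ^ (c * J) := by linarith
    have h5 : (2 : ℝ) ^ (⌊σ * (J : ℝ)⌋₊ + 1) * (1 + |(d J F).ka ((d J F).y w ω)|) ≤
        2 ^ (⌊σ * (J : ℝ)⌋₊ + 1) * (2 * (2 : ℝ) ^ (c * J)) :=
      mul_le_mul_of_nonneg_left h4 (by positivity)
    refine h5.trans ?_
    have e2 : (2 : ℝ) ^ (⌊σ * (J : ℝ)⌋₊ + 1) * (2 * (2 : ℝ) ^ (c * J)) =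
        (2 : ℝ) ^ (((⌊σ * (J : ℝ)⌋₊ + 2 : ℕ) : ℝ) + c * J) := by
      rw [Real.rpow_add (by norm_num), Real.rpow_natCast]
      ring
    have e3 : (2 : ℝ) ^ (⌈(c + σ) * (J : ℝ)⌉₊ + 2) =
        (2 : ℝ) ^ (((⌈(c + σ) * (J : ℝ)⌉₊ + 2 : ℕ) : ℝ)) := by rw [Real.rpow_natCast]
    rw [e2, e3]
    refine Real.rpow_le_rpow_of_exponent_le (by norm_num) ?_
    have h6 : (⌊σ * (J : ℝ)⌋₊ : ℝ) ≤ σ * J := Nat.floor_le (mul_nonneg hσ hJ0)
    have h7 := Nat.le_ceil ((c + σ) * (J : ℝ))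
    push_cast
    linarith
  · have e1 : (vz w h0 h1 d).y J F ω = (d J F).y w ω := rfl
    have e2 : (vz w h0 h1 d).y J F ω' = (d J F).y w ω' := rfl
    rw [e1, e2, ← h.1 ω hω, ← h.1 ω' hω', e]

/-- **Fullness of the straight image**, for the data of a class. -/
theorem ful_sub (hF : FZX (N + 1)) {S : PCl m} (hS : S.Ne)
    (hpos : ∀ (τ : ℝ) (J : ℕ) (F : Fam m J) (A : F.Ω → Prop), S.St τ J F A → 0 < Pe F.p A)
    {C₀ : ℝ} (hC₀ : 0 ≤ C₀) (htm : TmC S C₀) {N₀ : ℚ → ℚ → ℝ} {al : ℝ} {g₀ : ℝ → ℝ} (hal : 0 < al)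
    (hg₀ : ∀ ε : ℝ, 0 < ε → 0 < g₀ ε) (hM : ActM N₀ al g₀) {φ : Fin N → Fin m}
    (hφ : Function.Injective φ) (i₀ : Fin N) (hB : ActB N₀ S (φ i₀)) {k n : Fin m}
    {w s x r η : ℝ} (hw0 : 0 ≤ w) (hw1 : w < 1) (hs0 : 0 ≤ s) (hx : 0 ≤ x) (hr : r ≤ 1 - x)
    (hη : 0 < η) (hη2 : η ≤ 1 / 2) {w₂ u v₀ : ℝ} (hw₂ : w < w₂) (hwu : w₂ ≤ u) (hu1 : u < 1)
    (hful : Ful S (univ.image φ) w₂ u) (huw : 8 * (u - w) ≤ η * (1 - w)) (hv₀ : w < v₀)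
    (hv1 : v₀ ≤ 1)
    (hno : ∀ K, Bas S (fun J F A => ¬ LbR 0 F (bsk φ k) n K ⌊v₀ * J⌋₊ ⌊(s + η) * J⌋₊ A))
    {d : ∀ (J : ℕ) (F : Fam m J), SD F}
    (hd : ∀ (τ : ℝ) (J : ℕ) (F : Fam m J) (A : F.Ω → Prop), S.St τ J F A →
      VD w (x + η) J F (d J F) A) :
    ∃ S₁ : PCl m, S₁.Ne ∧ (∀ (τ : ℝ) (J : ℕ) (F : Fam m J) (A : F.Ω → Prop),
      S₁.St τ J F A → S.St τ J F A) ∧ Bas S₁ (fun J F A =>
        (r - s - (N + 6) * η) * Real.log 2 * J ≤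
        CH (Pool.Agent.H49.Ent.cond F.p A True)
          (fun ω => ⌊(2 : ℝ) ^ ⌊r * J⌋₊ *
            (F.x ω n - (d J F).ka ((d J F).y w ω) * F.x ω k)⌋)
          (fun ω => (ceI (univ.image φ) (fun _ => J) (F.x ω), ((d J F).y w ω, F.W ω)))) := by
  classical
  obtain ⟨v, hv⟩ : ∃ v : Vz m, v = vz w hw0 hw1 d := ⟨_, rfl⟩
  have hvb : v.b = w := by rw [hv]; rfl
  obtain ⟨c, hc⟩ : ∃ c, c = x + η := ⟨_, rfl⟩
  have hc0 : 0 ≤ c := by rw [hc]; linarith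
  obtain ⟨M, hMd⟩ : ∃ M : ℕ → ℕ, M = fun J : ℕ => ⌈(c + η) * (J : ℝ)⌉₊ + 2 :=
    ⟨_, rfl⟩
  obtain ⟨q, hqd⟩ : ∃ q : ℕ → ℕ, q = fun J : ℕ => ⌊η * (J : ℝ)⌋₊ := ⟨_, rfl⟩
  subst hv
  have hst : Bas S (fun J F A => StH F (vz w hw0 hw1 d) (d J F).ka (M J) (q J) A) := by
    refine ⟨1, one_pos, 0, fun J _ F A hA => ?_⟩
    rw [hMd, hqd]
    refine vd_st hw0 hw1 hc0 hη.le ?_
    rw [hc]
    exact hd 1 J F A hA
  have hw1' : 0 < 1 - w := by linarith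
  obtain ⟨P, hP⟩ : ∃ P, P = (s + x + 4 * η - w) / (1 - w) + η / 2 / 8 := ⟨_, rfl⟩
  have hPe : (P - η / 2 / 8) * (1 - w) = s + x + 4 * η - w := by
    rw [hP]
    field_simp
    ring
  obtain ⟨S₁, hS₁, hsub, hb⟩ := core hF hS hpos hC₀ htm hal hg₀ hM hφ i₀ hB (k := k) (n := n)
    (ka := fun J F => (d J F).ka) (M := M) (q := q) hst (w₂ := w₂) (u := u) (v₀ := v₀) (Q := s + η) (m₀ := c + η) (C := 3) (σ := η) (δ := η / 2)
    (P := P) (ρ := η) hw₂ hwu hu1 hful (by rw [hvb]; linarith) (by linarith) (by linarith)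
    (by linarith) (by linarith) (fun J => by
      rw [hqd]
      refine Nat.floor_le_floor (mul_le_mul_of_nonneg_left ?_ hη.le)
      exact_mod_cast Nat.sub_le _ _) hv₀ hv1 hno (fun J => by
      rw [hMd]
      have h1 := Nat.ceil_lt_add_one (mul_nonneg (show (0 : ℝ) ≤ c + η by linarith)
        (Nat.cast_nonneg J))
      push_cast
      linarith) (by linarith) (by
      rw [hvb, hPe, hc]
      linarith) hη
  refine ⟨S₁, hS₁, hsub, ?_⟩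
  have hpB : Bas S₁ (fun _ F A => 0 < Pe F.p A) :=
    ⟨1, one_pos, 0, fun J _ F A hA => hpos 1 J F A (hsub 1 J F A hA)⟩
  have hl2 : 0 < Real.log 2 := Real.log_pos one_lt_two
  have hl1 : Real.log 2 ≤ 1 := by
    have := Real.log_two_lt_d9
    linarith
  obtain ⟨a, ha⟩ : ∃ a : ℝ, a = 1 - P - N * (η / 2) - η := ⟨_, rfl⟩
  obtain ⟨Cn, hCn⟩ : ∃ Cn : ℝ, Cn = |a| + N * Real.log 11 + Real.log 7 := ⟨_, rfl⟩
  obtain ⟨J₁, hJ₁⟩ := bgJ (a := η / 2 * Real.log 2) (by positivity) Cn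
  refine ((hb.and (Bas.sub hsub hst)).and hpB).mono J₁ ?_
  rintro J hJ F A ⟨⟨⟨ε, h1⟩, h2⟩, hA⟩
  have g1 := hJ₁ J hJ
  have hJ0 : (0 : ℝ) ≤ J := Nat.cast_nonneg J
  have hq := isLaw_cond F.isLaw hA
  obtain ⟨X, hX⟩ : ∃ X, X = CH (Pool.Agent.H49.Ent.cond F.p A True)
    (fun ω => ⌊(2 : ℝ) ^ ⌊r * (J : ℝ)⌋₊ * (F.x ω n - (d J F).ka ((d J F).y w ω) * F.x ω k)⌋)
    (fun ω => (ceI (univ.image φ) (fun _ => J) (F.x ω), ((d J F).y w ω, F.W ω))) := ⟨_, rfl⟩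
  have h3 : (N * (1 - η / 2) + (1 - P) - η) * Real.log 2 *
      ((J - (vz w hw0 hw1 d).B J : ℕ) : ℝ) ≤
      N * (((J - (vz w hw0 hw1 d).B J : ℕ) : ℝ) * Real.log 2 + Real.log 11) +
      Real.log (2 * (2 ^ J / (2 ^ M J * 2 ^ ⌊r * (J : ℝ)⌋₊) + 1) + 1) + X := by
    rw [hX]
    have h4 := StH.ext (v := vz w hw0 hw1 d) (φ := φ) (k := k) (n := n) (M := M) (q := q J)
      (ka := fun J F => (d J F).ka) h2 hA (S := Unit) (fun _ => ()) h1 ⌊r * (J : ℝ)⌋₊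
    have h5 : CH (Pool.Agent.H49.Ent.cond F.p A True)
        (fun ω => ⌊(2 : ℝ) ^ ⌊r * (J : ℝ)⌋₊ * (F.x ω n - (d J F).ka ((vz w hw0 hw1 d).y J F ω) *
          F.x ω k)⌋)
        (fun ω => (ceI (univ.image φ) (fun _ => J) (F.x ω), ((vz w hw0 hw1 d).y J F ω,
          F.W ω))) = CH (Pool.Agent.H49.Ent.cond F.p A True)
        (fun ω => ⌊(2 : ℝ) ^ ⌊r * (J : ℝ)⌋₊ * (F.x ω n - (d J F).ka ((d J F).y w ω) *
          F.x ω k)⌋)
        (fun ω => (ceI (univ.image φ) (fun _ => J) (F.x ω), ((d J F).y w ω, F.W ω))) := rfl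
    rw [← h5]
    exact h4
  rw [← hX]
  -- the rounding
  have k1 : Real.log (2 * (2 ^ J / (2 ^ M J * 2 ^ ⌊r * (J : ℝ)⌋₊) + 1) + 1) ≤
      (1 - x - r) * J * Real.log 2 + Real.log 7 := by
    have hR := Nat.lt_floor_add_one (r * (J : ℝ))
    have hMJ : x * (J : ℝ) ≤ M J := by
      rw [hMd]
      have h4 := Nat.le_ceil ((c + η) * (J : ℝ))
      have h5 : x * (J : ℝ) ≤ (c + η) * J := mul_le_mul_of_nonneg_right (by linarith) hJ0
      push_cast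
      linarith
    have h1' : (1 : ℝ) ≤ (2 : ℝ) ^ ((1 - x - r) * J) :=
      Real.one_le_rpow (by norm_num) (mul_nonneg (by linarith) hJ0)
    have h4 : (2 : ℝ) ^ J / (2 ^ M J * 2 ^ ⌊r * (J : ℝ)⌋₊) ≤ 2 * (2 : ℝ) ^ ((1 - x - r) * J) := by
      have e3 : (2 : ℝ) ^ J / (2 ^ M J * 2 ^ ⌊r * (J : ℝ)⌋₊) =
          (2 : ℝ) ^ ((J : ℝ) - ((M J : ℝ) + (⌊r * (J : ℝ)⌋₊ : ℝ))) := by
        rw [Real.rpow_sub (by norm_num), Real.rpow_add (by norm_num), Real.rpow_natCast,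
          Real.rpow_natCast, Real.rpow_natCast]
      have e4 : 2 * (2 : ℝ) ^ ((1 - x - r) * J) = (2 : ℝ) ^ (1 + (1 - x - r) * J) := by
        rw [Real.rpow_add (by norm_num), Real.rpow_one]
      rw [e3, e4]
      refine Real.rpow_le_rpow_of_exponent_le (by norm_num) ?_
      have : (1 - x - r) * (J : ℝ) = J - x * J - r * J := by ring
      linarith
    have h5 : 2 * (2 ^ J / (2 ^ M J * 2 ^ ⌊r * (J : ℝ)⌋₊) + 1) + 1 ≤
        7 * (2 : ℝ) ^ ((1 - x - r) * J) := by linarith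
    refine (Real.log_le_log (by positivity) h5).trans (le_of_eq ?_)
    rw [Real.log_mul (by norm_num) (by positivity), Real.log_rpow (by norm_num)]
    ring
  obtain ⟨J', hJ'⟩ : ∃ J' : ℝ, J' = ((J - (vz w hw0 hw1 d).B J : ℕ) : ℝ) := ⟨_, rfl⟩
  have hm := jmul (vz w hw0 hw1 d) a J
  rw [hvb] at hm
  rw [← hJ'] at h3 hm
  have k2 : (N * (1 - η / 2) + (1 - P) - η) * Real.log 2 * J' - N * (J' * Real.log 2 +
      Real.log 11) = a * J' * Real.log 2 - N * Real.log 11 := by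
    rw [ha]
    ring
  have k3 : (a * (1 - w) * J - |a|) * Real.log 2 ≤ a * J' * Real.log 2 :=
    mul_le_mul_of_nonneg_right hm hl2.le
  have k4 : a * (1 - w) = 1 - x - s - 4 * η - (η / 16 + N * (η / 2) + η) * (1 - w) := by
    have e5 : a * (1 - w) = (1 - w) - (P - η / 2 / 8) * (1 - w) -
      (η / 16 + N * (η / 2) + η) * (1 - w) := by
      rw [ha]
      ring
    rw [e5, hPe]
    ring
  have k5 : (η / 16 + N * (η / 2) + η) * (1 - w) ≤ η / 16 + N * (η / 2) + η := by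
    have : 0 ≤ η / 16 + N * (η / 2) + η := by positivity
    calc (η / 16 + N * (η / 2) + η) * (1 - w) ≤ (η / 16 + N * (η / 2) + η) * 1 :=
          mul_le_mul_of_nonneg_left (by linarith) this
      _ = _ := mul_one _
  have hNη : 0 ≤ (N : ℝ) * η := by positivity
  have k6 : (1 - x - s - (N + 6) * η + η / 2) * (J : ℝ) ≤ a * (1 - w) * J := by
    refine mul_le_mul_of_nonneg_right ?_ hJ0
    rw [k4]
    linarith
  have k7 := mul_le_mul_of_nonneg_right k6 hl2.le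
  have k8 : |a| * Real.log 2 ≤ |a| := mul_le_of_le_one_right (abs_nonneg a) hl1
  have e6 : (1 - x - s - (N + 6) * η + η / 2) * (J : ℝ) * Real.log 2 =
    (r - s - (N + 6) * η) * Real.log 2 * J + (1 - x - r) * J * Real.log 2 +
      η / 2 * Real.log 2 * J := by ring
  have e7 : (a * (1 - w) * J - |a|) * Real.log 2 = a * (1 - w) * J * Real.log 2 -
    |a| * Real.log 2 := by ring
  linarith

/-- **Fullness of the straight image.** -/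
theorem fulI (hF : FZX (N + 1)) {S : PCl m} {C₀ : ℝ} (hC₀ : 0 ≤ C₀) (htm : TmC S C₀)
    {N₀ : ℚ → ℚ → ℝ} {al : ℝ} {g₀ : ℝ → ℝ} (hal : 0 < al)
    (hg₀ : ∀ ε : ℝ, 0 < ε → 0 < g₀ ε) (hM : ActM N₀ al g₀) {φ : Fin N → Fin m}
    (hφ : Function.Injective φ) (i₀ : Fin N) (hB : ActB N₀ S (φ i₀)) {k n : Fin m}
    {w s : ℝ} (hw0 : 0 ≤ w) (hw1 : w < 1) (hs0 : 0 ≤ s)
    (hful : ∀ δ : ℝ, 0 < δ → ∃ w₂ u : ℝ, w < w₂ ∧ w₂ ≤ u ∧ u < w + δ ∧
      Ful S (univ.image φ) w₂ u)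
    (hno : ∀ μ : ℝ, 0 < μ → s + μ ≤ 1 → ∃ v₀ : ℝ, w < v₀ ∧ v₀ ≤ 1 ∧ ∀ K,
      Bas S (fun J F A => ¬ LbR 0 F (bsk φ k) n K ⌊v₀ * J⌋₊ ⌊(s + μ) * J⌋₊ A))
    {x r : ℝ} (hx : 0 ≤ x) (hr : r ≤ 1 - x) {ρ : ℝ} (hρ : 0 < ρ) :
    ∃ e : ℝ, 0 < e ∧ Bas S (fun J F A => ∀ (V : Type) (z : PtT F → V) (z' : LnT F → V)
      (ka : V → ℝ), (∀ ω, A ω → z (ptr F J ω) = z' (slam F ⌊w * J⌋₊ ω)) →
      (∀ ω, A ω → |ka (z' (slam F ⌊w * J⌋₊ ω))| ≤ (2 : ℝ) ^ ((x + e) * J)) →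
      (r - s - ρ) * Real.log 2 * J ≤ CH (Pool.Agent.H49.Ent.cond F.p A True)
        (fun ω => ⌊(2 : ℝ) ^ ⌊r * J⌋₊ * (F.x ω n - ka (z' (slam F ⌊w * J⌋₊ ω)) * F.x ω k)⌋)
        (fun ω => (ceI (univ.image φ) (fun _ => J) (F.x ω),
          (z' (slam F ⌊w * J⌋₊ ω), F.W ω)))) := by
  classical
  have hpos : ∀ (τ : ℝ) (J : ℕ) (F : Fam m J) (A : F.Ω → Prop), S.St τ J F A →
      0 < Pe F.p A := fun τ J F A h => (htm (max τ 1) J F A (lt_max_of_lt_right one_pos)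
        (S.mono (le_max_left _ _) h)).1
  have hl2 : 0 < Real.log 2 := Real.log_pos one_lt_two
  have hN0 : (0 : ℝ) ≤ N := Nat.cast_nonneg N
  obtain ⟨η, hη⟩ : ∃ η, η = min (ρ / (8 * (N + 6))) (1 / 2) := ⟨_, rfl⟩
  have hη0 : 0 < η := by
    rw [hη]
    exact lt_min (by positivity) (by norm_num)
  have hη2 : η ≤ 1 / 2 := by rw [hη]; exact min_le_right _ _
  have hηρ : (N + 6) * η ≤ ρ / 8 := by
    have h1 : η ≤ ρ / (8 * (N + 6)) := by rw [hη]; exact min_le_left _ _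
    calc ((N : ℝ) + 6) * η ≤ (N + 6) * (ρ / (8 * (N + 6))) :=
          mul_le_mul_of_nonneg_left h1 (by positivity)
      _ = ρ / 8 := by field_simp
  refine ⟨η, hη0, ?_⟩
  -- the trivial case
  by_cases htr : 1 < s + η
  · refine ⟨1, one_pos, 0, fun J _ F A hA V z z' ka _ _ => ?_⟩
    have hq := isLaw_cond F.isLaw (hpos 1 J F A hA)
    refine le_trans ?_ (CH_nonneg hq.nonneg _ _)
    have h1 : r - s - ρ ≤ 0 := by
      have : η ≤ (N + 6) * η := by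
        have := mul_nonneg hN0 hη0.le
        linarith
      linarith
    exact mul_nonpos_of_nonpos_of_nonneg (mul_nonpos_of_nonpos_of_nonneg h1 hl2.le)
      (Nat.cast_nonneg J)
  push Not at htr
  obtain ⟨v₀, hv₀, hv1, hno'⟩ := hno η hη0 htr
  have hw1' : 0 < 1 - w := by linarith
  obtain ⟨w₂, u, hw₂, hwu, hu, hfl⟩ := hful (min (η * (1 - w) / 8) (1 - w))
    (lt_min (by positivity) hw1')
  have hu1 : u < 1 := by
    have := min_le_right (η * (1 - w) / 8) (1 - w)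
    linarith
  have hu2 : 8 * (u - w) ≤ η * (1 - w) := by
    have := min_le_left (η * (1 - w) / 8) (1 - w)
    linarith
  have key := bas_low (S := S) hpos (Δ := fun _ F => SD F)
    (fun J F d A => VD w (x + η) J F d A)
    (fun J F d A B h hB => ⟨fun ω hω => h.1 ω (hB ω hω), fun ω hω => h.2 ω (hB ω hω)⟩)
    (fun J F d ω => ⌊(2 : ℝ) ^ ⌊r * (J : ℝ)⌋₊ * (F.x ω n - d.ka (d.y w ω) * F.x ω k)⌋)
    (fun J F d ω => (ceI (univ.image φ) (fun _ => J) (F.x ω), (d.y w ω, F.W ω)))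
    (fun J _ _ => (r - s - ρ / 2) * Real.log 2 * J) (C := (r - s - ρ / 2) * Real.log 2)
    (δ := ρ / 2 * Real.log 2) (fun _ _ _ => le_rfl) (by positivity) (by
      intro S' hS' hsub d hd
      obtain ⟨S₁, h1, h2, h3⟩ := ful_sub hF hS'
        (fun τ J F A h => hpos τ J F A (hsub τ J F A h)) hC₀
        (fun τ J F A h1 h2 => htm τ J F A h1 (hsub τ J F A h2)) hal hg₀ hM hφ i₀
        (fun a b h1 h2 h3 h h4 => Bas.sub hsub (hB a b h1 h2 h3 h h4)) (k := k) (n := n)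
        (s := s) hw0 hw1 hs0 hx hr hη0 hη2 hw₂ hwu hu1
        (fun ρ hρ => Bas.sub hsub (hfl ρ hρ)) hu2 hv₀ hv1
        (fun K => Bas.sub hsub (hno' K)) hd
      refine ⟨S₁, h1, h2, h3.mono 0 fun J _ F A h4 => le_trans ?_ h4⟩
      have e1 : (r - s - ρ / 2) * Real.log 2 * J - ρ / 2 * Real.log 2 / 4 * J =
        (r - s - ρ / 2 - ρ / 8) * Real.log 2 * J := by ring
      show (r - s - ρ / 2) * Real.log 2 * J - ρ / 2 * Real.log 2 / 4 * J ≤ _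
      rw [e1]
      exact mul_le_mul_of_nonneg_right (mul_le_mul_of_nonneg_right (by linarith) hl2.le)
        (Nat.cast_nonneg J))
  have hpB : Bas S (fun _ F A => 0 < Pe F.p A) :=
    ⟨1, one_pos, 0, fun J _ F A hA => hpos 1 J F A hA⟩
  refine (key.and hpB).mono 0 ?_
  rintro J - F A ⟨h1, hA⟩ V z z' ka hz hka
  have hq := isLaw_cond F.isLaw hA
  -- the datum
  obtain ⟨rep, hrep⟩ : ∃ rep : V → Option F.Ω, rep = fun y =>
    if h : ∃ ω, z' (slam F ⌊w * (J : ℝ)⌋₊ ω) = y then some h.choose else none := ⟨_, rfl⟩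
  obtain ⟨kb, hkb⟩ : ∃ kb : Option F.Ω → ℝ, kb = fun o => match o with
    | none => 0
    | some ω => ka (z' (slam F ⌊w * (J : ℝ)⌋₊ ω)) := ⟨_, rfl⟩
  have hr1 : ∀ ω : F.Ω, ∃ ω' : F.Ω, rep (z' (slam F ⌊w * (J : ℝ)⌋₊ ω)) = some ω' ∧
      z' (slam F ⌊w * (J : ℝ)⌋₊ ω') = z' (slam F ⌊w * (J : ℝ)⌋₊ ω) := by
    intro ω
    have hex : ∃ ω', z' (slam F ⌊w * (J : ℝ)⌋₊ ω') = z' (slam F ⌊w * (J : ℝ)⌋₊ ω) := ⟨ω, rfl⟩
    refine ⟨hex.choose, ?_, hex.choose_spec⟩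
    rw [hrep]
    exact dif_pos hex
  have hk1 : ∀ ω : F.Ω, kb (rep (z' (slam F ⌊w * (J : ℝ)⌋₊ ω))) =
      ka (z' (slam F ⌊w * (J : ℝ)⌋₊ ω)) := by
    intro ω
    obtain ⟨ω', h2, h3⟩ := hr1 ω
    rw [h2, hkb]
    show ka (z' (slam F ⌊w * (J : ℝ)⌋₊ ω')) = _
    rw [h3]
  obtain ⟨d, hd⟩ : ∃ d : SD F, d = ⟨fun y => rep (z y), fun y => rep (z' y), kb⟩ := ⟨_, rfl⟩
  have hdy : ∀ ω, d.y w ω = rep (z' (slam F ⌊w * (J : ℝ)⌋₊ ω)) := fun ω => by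
    rw [hd]
    rfl
  have hdk : ∀ ω, d.ka (d.y w ω) = ka (z' (slam F ⌊w * (J : ℝ)⌋₊ ω)) := fun ω => by
    rw [hdy, ← hk1 ω, hd]
  have h2 := h1 d ⟨fun ω hω => by
    rw [hdy, ← hz ω hω, hd], fun ω hω => by
    rw [hdk]
    exact hka ω hω⟩
  have h3 : CH (Pool.Agent.H49.Ent.cond F.p A True)
      (fun ω => ⌊(2 : ℝ) ^ ⌊r * (J : ℝ)⌋₊ * (F.x ω n - d.ka (d.y w ω) * F.x ω k)⌋)
      (fun ω => (ceI (univ.image φ) (fun _ => J) (F.x ω), (d.y w ω, F.W ω))) ≤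
      CH (Pool.Agent.H49.Ent.cond F.p A True)
      (fun ω => ⌊(2 : ℝ) ^ ⌊r * (J : ℝ)⌋₊ *
        (F.x ω n - ka (z' (slam F ⌊w * (J : ℝ)⌋₊ ω)) * F.x ω k)⌋)
      (fun ω => (ceI (univ.image φ) (fun _ => J) (F.x ω),
        (z' (slam F ⌊w * (J : ℝ)⌋₊ ω), F.W ω))) := by
    simp only [hdk]
    refine CH_mono_cond hq.nonneg fun ω ω' _ _ e => ?_
    have e1 := Prod.ext_iff.1 e
    have e2 := Prod.ext_iff.1 e1.2
    refine Prod.ext e1.1 (Prod.ext ?_ e2.2)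
    have e3 : d.y w ω = d.y w ω' := e2.1
    rw [hdy, hdy] at e3
    obtain ⟨ω₁, f1, f2⟩ := hr1 ω
    obtain ⟨ω₂, f3, f4⟩ := hr1 ω'
    rw [f1, f3] at e3
    have e4 := Option.some.inj e3
    show z' (slam F ⌊w * (J : ℝ)⌋₊ ω) = z' (slam F ⌊w * (J : ℝ)⌋₊ ω')
    rw [← f2, ← f4, e4]
  refine le_trans ?_ h3
  have e1 : (r - s - ρ) * Real.log 2 * J = (r - s - ρ / 2) * Real.log 2 * J -
    ρ / 2 * Real.log 2 * J := by ring
  rw [e1]
  exact h2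

end Pool.FUL33
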