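import Pool.Agent.H33.FUL.Stg
import Pool.Agent.H27.TOP.Lbt

/-!
# Labels of the straight images

`st_fac`: a closed function of the window with new lines is a closed function of the family, on the
events on which the point determines the point of the window with new lines. `StH.lbr`: a closed
label of the last coordinate of the straight image over coordinates of the base is a closed label of
the coordinate `n` over the base and the coordinate `k`.
-/

set_option autoImplicit false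

namespace Pool.FUL33

open Finset Real MvPolynomial
open Pool.Agent.H49.Ent Pool.Agent.H32.Dense Pool.STK Pool.KA Pool.KSAT Pool.K2S Pool.PB Pool.S6C
open Pool.GEN Pool.REX Pool.REX83 Pool.NFT33 Pool.TOP
open Pool.GRD (LbP)

variable {m N n' J : ℕ}

/-- Closed functions of the window with new lines. -/
theorem st_fac {F : Fam m J} {v : Vz m} {f : Nw v n'} {B : F.Ω → Prop}
    (hdet : ∀ ω ω', B ω → B ω' → ptr F J ω = ptr F J ω' →
      ptr (winI v f F) (J - v.B J) ω = ptr (winI v f F) (J - v.B J) ω')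
    {w' W : ℕ} (hW : v.B J + w' ≤ W) (hWJ : W ≤ J) {V : Type} {z : PtT (winI v f F) → V}
    {z' : LnT (winI v f F) → V}
    (hcl : ∀ ω, B ω → z (ptr (winI v f F) (J - v.B J) ω) = z' (slam (winI v f F) w' ω)) :
    ∃ (yp : PtT F → Option (V × (v.win F).ζ)) (yl : LnT F → Option (V × (v.win F).ζ)),
      ∀ ω, B ω → yp (ptr F J ω) = some (z' (slam (winI v f F) w' ω), (v.win F).Z ω) ∧
        yl (slam F W ω) = some (z' (slam (winI v f F) w' ω), (v.win F).Z ω) := by
  obtain ⟨val, hval⟩ : ∃ val : F.Ω → V × (v.win F).ζ, val = fun ω =>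
    (z' (slam (winI v f F) w' ω), (v.win F).Z ω) := ⟨_, rfl⟩
  obtain ⟨yp, hyp⟩ := fac (f := ptr F J) (Y := val) (B := B) (by
    intro ω ω' hω hω' e
    have a1 := hdet ω ω' hω hω' e
    have a3 : (v.win F).Z ω = (v.win F).Z ω' := (Prod.ext_iff.mp (Prod.ext_iff.mp a1).2).2
    rw [hval]
    refine Prod.ext ?_ a3
    show z' (slam (winI v f F) w' ω) = z' (slam (winI v f F) w' ω')
    rw [← hcl ω hω, ← hcl ω' hω', a1])
  obtain ⟨yl, hyl⟩ := fac (f := slam F W) (Y := val) (B := B) (by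
    intro ω ω' hω hω' hsl
    have hsl' : slam F (v.B J + w') ω = slam F (v.B J + w') ω' := by
      rw [slam_coarse F hW hWJ ω, slam_coarse F hW hWJ ω', hsl]
    have a1 := win_of_slam v F (by omega) hsl'
    have a2 : slam (winI v f F) w' ω = slam (winI v f F) w' ω' := img_slam (v.win F) (f J F) a1
    have a3 : (v.win F).Z ω = (v.win F).Z ω' := (Prod.ext_iff.mp (Prod.ext_iff.mp a1).2).1
    rw [hval]
    refine Prod.ext ?_ a3
    show z' (slam (winI v f F) w' ω) = z' (slam (winI v f F) w' ω')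
    rw [a2])
  refine ⟨yp, yl, fun ω hω => ?_⟩
  rw [hyp ω hω, hyl ω hω, hval]
  exact ⟨rfl, rfl⟩

section sgs

/-- The coordinates of the straight image, as polynomials. -/
noncomputable def sgs (B : ℕ) (φ : Fin N → Fin m) (t₀ : ℝ) (x₀ : Fin m → ℝ) :
    Option (Fin (N + 1)) → MvPolynomial (Option (Fin m)) ℝ
  | none => C (2 ^ B) * X none - C t₀
  | some i => Fin.snoc (α := fun _ => MvPolynomial (Option (Fin m)) ℝ)
      (fun i => C (2 ^ B) * X (some (φ i)) - C (x₀ (φ i))) 0 i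

variable {B : ℕ} {φ : Fin N → Fin m} {t₀ : ℝ} {x₀ : Fin m → ℝ} (b : Option (Fin m) → ℝ)

theorem sgs_none : eval b (sgs B φ t₀ x₀ none) = 2 ^ B * b none - t₀ := by
  unfold sgs
  rw [map_sub, map_mul, eval_C, eval_C, eval_X]

theorem sgs_cast' (i : Fin N) : sgs B φ t₀ x₀ (some i.castSucc) =
    C (2 ^ B) * X (some (φ i)) - C (x₀ (φ i)) := by
  unfold sgs
  exact Fin.snoc_castSucc (α := fun _ => MvPolynomial (Option (Fin m)) ℝ) _ _ i

theorem sgs_cast (i : Fin N) :
    eval b (sgs B φ t₀ x₀ (some i.castSucc)) = 2 ^ B * b (some (φ i)) - x₀ (φ i) := by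
  rw [sgs_cast', map_sub, map_mul, eval_C, eval_C, eval_X]

theorem sgs_last : sgs B φ t₀ x₀ (some (Fin.last N)) = 0 := by
  unfold sgs
  exact Fin.snoc_last (α := fun _ => MvPolynomial (Option (Fin m)) ℝ) _ _

theorem deg_sgs (o : Option (Fin (N + 1))) : (sgs B φ t₀ x₀ o).totalDegree ≤ 1 := by
  rcases o with _ | i
  · exact deg_lin B none t₀
  · refine Fin.lastCases ?_ (fun i => ?_) i
    · rw [sgs_last, totalDegree_zero]
      exact Nat.zero_le _
    · rw [sgs_cast']
      exact deg_lin B (some (φ i)) _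

end sgs

/-- The coordinates of the base and the coordinate `k`. -/
def bsk (φ : Fin N → Fin m) (k : Fin m) : Finset (Fin m) := insert k (univ.image φ)

section lb

variable {F : Fam m J} {v : Vz m} {φ : Fin N → Fin m} {k n : Fin m} {M : ℕ → ℕ}
  {ka : ∀ (J : ℕ) (F : Fam m J), v.κ J F → ℝ} {q : ℕ} {A : F.Ω → Prop}

/-- **A label of the last coordinate of the straight image is a label of the family.** -/
theorem StH.lbr (h : StH F v (ka J F) (M J) q A) {B : F.Ω → Prop} (hB : Sub B A)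
    (hdet : ∀ ω ω', B ω → B ω' → ptr F J ω = ptr F J ω' →
      ptr (winI v (nwS v φ k n M ka) F) (J - v.B J) ω =
        ptr (winI v (nwS v φ k n M ka) F) (J - v.B J) ω')
    {I' : Finset (Fin (N + 1))} (hI' : Fin.last N ∉ I') {K' w' W P' P₂ : ℕ}
    (hW : v.B J + w' ≤ W) (hWJ : W ≤ J)
    (hnum : (2 : ℝ) ^ P₂ * 2 ^ M J ≤ 2 ^ (v.B J + P')) {V : Type}
    {z : PtT (winI v (nwS v φ k n M ka) F) → V} {z' : LnT (winI v (nwS v φ k n M ka) F) → V}
    {G : V → MvPolynomial (Option (Fin (N + 1))) ℝ}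
    (hL : LbP (winI v (nwS v φ k n M ka) F) I' (Fin.last N) K' (J - v.B J) w' P' A z z' G) :
    LbR 0 F (bsk φ k) n (K' + 1) W P₂ B := by
  classical
  obtain ⟨yp, yl, hy⟩ := st_fac hdet hW hWJ (fun ω hω => hL.cls ω (hB ω hω))
  obtain ⟨σ, hσ⟩ : ∃ σ : (v.win F).ζ → Option (Fin (N + 1)) → MvPolynomial (Option (Fin m)) ℝ,
    σ = fun y => sgs (v.B J) φ (y.2.1.1 : ℝ) (fun i => (y.2.1.2 i : ℝ)) := ⟨_, rfl⟩
  obtain ⟨Gf, hGf⟩ : ∃ Gf : Option (V × (v.win F).ζ) → MvPolynomial (Option (Fin m)) ℝ,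
    Gf = fun o => match o with
    | none => 0
    | some u => C (ka J F u.2.1) * X (some k) +
      (C (((u.2.2.1.2 n : ℝ) - ka J F u.2.1 * u.2.2.1.2 k) / 2 ^ v.B J) +
      C (2 ^ M J / 2 ^ v.B J) * aeval (σ u.2) (G u.1)) := ⟨_, rfl⟩
  have hev : ∀ (u : V × (v.win F).ζ) (b : Option (Fin m) → ℝ), eval b (Gf (some u)) =
      ka J F u.2.1 * b (some k) + (((u.2.2.1.2 n : ℝ) - ka J F u.2.1 * u.2.2.1.2 k) / 2 ^ v.B J +
        2 ^ M J / 2 ^ v.B J * eval (fun o => eval b (σ u.2 o)) (G u.1)) := by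
    intro u b
    rw [hGf]
    show eval b (C (ka J F u.2.1) * X (some k) +
      (C (((u.2.2.1.2 n : ℝ) - ka J F u.2.1 * u.2.2.1.2 k) / 2 ^ v.B J) +
      C (2 ^ M J / 2 ^ v.B J) * aeval (σ u.2) (G u.1))) = _
    rw [map_add, map_add, map_mul, map_mul, eval_C, eval_C, eval_C, eval_X, eval_aevalσ]
  refine ⟨Option (V × (v.win F).ζ), yp, yl, Gf, ⟨fun o => ?_, fun o b b' hn hb => ?_,
    fun ω hω => ?_, fun ω hω b hb => ?_⟩⟩
  · rcases o with _ | u
    · rw [hGf]
      show (0 : MvPolynomial (Option (Fin m)) ℝ).totalDegree ≤ _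
      rw [totalDegree_zero]
      exact Nat.zero_le _
    · rw [hGf]
      show (C (ka J F u.2.1) * X (some k) +
        (C (((u.2.2.1.2 n : ℝ) - ka J F u.2.1 * u.2.2.1.2 k) / 2 ^ v.B J) +
        C (2 ^ M J / 2 ^ v.B J) * aeval (σ u.2) (G u.1))).totalDegree ≤ _
      refine (totalDegree_add _ _).trans (max_le ?_ ((totalDegree_add _ _).trans
        (max_le ?_ ?_)))
      · refine (totalDegree_mul _ _).trans ?_
        rw [totalDegree_C, totalDegree_X]
        omega
      · rw [totalDegree_C]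
        exact Nat.zero_le _
      · refine (totalDegree_mul _ _).trans ?_
        rw [totalDegree_C, zero_add]
        have e1 : (aeval (σ u.2) (G u.1)).totalDegree ≤ 1 * K' := by
          refine totalDegree_aevalσ (fun o => ?_) (hL.deg _)
          rw [hσ]
          exact deg_sgs o
        omega
  · rcases o with _ | u
    · rw [hGf]
      show eval b (0 : MvPolynomial (Option (Fin m)) ℝ) = eval b' 0
      rw [map_zero, map_zero]
    · rw [hev, hev, hb k (mem_insert_self _ _)]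
      have e1 : eval (fun o => eval b (σ u.2 o)) (G u.1) =
          eval (fun o => eval b' (σ u.2 o)) (G u.1) := by
        refine hL.dep _ _ _ ?_ fun i hi => ?_
        · rw [hσ]
          show eval b (sgs _ _ _ _ none) = eval b' (sgs _ _ _ _ none)
          rw [sgs_none, sgs_none, hn]
        · rw [hσ]
          show eval b (sgs _ _ _ _ (some i)) = eval b' (sgs _ _ _ _ (some i))
          have hi' : i ≠ Fin.last N := fun hc => hI' (hc ▸ hi)
          obtain ⟨j, rfl⟩ : ∃ j : Fin N, i = j.castSucc :=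
            ⟨i.castPred hi', (Fin.castSucc_castPred i hi').symm⟩
          rw [sgs_cast, sgs_cast, hb (φ j) (mem_insert_of_mem (mem_image_of_mem _ (mem_univ _)))]
      rw [e1]
  · rw [(hy ω hω).1, (hy ω hω).2]
  · have hA := hB ω hω
    have hbb : b = bt F ω := by
      funext o
      have h1 := hb o
      rw [zero_div] at h1
      have h2 := abs_nonpos_iff.1 h1
      linarith
    rw [hbb, (hy ω hω).2, hev]
    show |F.x ω n - (ka J F (v.y J F ω) * F.x ω k +
      (((fl (v.B J) (F.x1 (v.B J) ω) n : ℝ) - ka J F (v.y J F ω) *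
        (fl (v.B J) (F.x1 (v.B J) ω) k : ℝ)) / 2 ^ v.B J + 2 ^ M J / 2 ^ v.B J *
        eval (fun o => eval (bt F ω) (σ ((v.win F).Z ω) o))
          (G (z' (slam (winI v (nwS v φ k n M ka) F) w' ω)))))| ≤ 1 / 2 ^ P₂
    -- the coordinates
    have e1 : eval (fun o => eval (bt F ω) (σ ((v.win F).Z ω) o))
        (G (z' (slam (winI v (nwS v φ k n M ka) F) w' ω))) =
        eval (bt (winI v (nwS v φ k n M ka) F) ω)
          (G (z' (slam (winI v (nwS v φ k n M ka) F) w' ω))) := by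
      refine hL.dep _ _ _ ?_ fun i hi => ?_
      · rw [hσ]
        show eval (bt F ω) (sgs _ _ _ _ none) = (v.win F).t ω
        rw [sgs_none, win_tt]
        rfl
      · rw [hσ]
        show eval (bt F ω) (sgs _ _ _ _ (some i)) = (winI v (nwS v φ k n M ka) F).x ω i
        have hi' : i ≠ Fin.last N := fun hc => hI' (hc ▸ hi)
        obtain ⟨j, rfl⟩ : ∃ j : Fin N, i = j.castSucc :=
          ⟨i.castPred hi', (Fin.castSucc_castPred i hi').symm⟩
        rw [sgs_cast, h.xb hA, win_x]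
        rfl
    rw [e1]
    have h1 := hL.pos ω hA
    rw [h.xl hA, win_x, win_x] at h1
    obtain ⟨g, hg⟩ : ∃ g, g = eval (bt (winI v (nwS v φ k n M ka) F) ω)
      (G (z' (slam (winI v (nwS v φ k n M ka) F) w' ω))) := ⟨_, rfl⟩
    rw [← hg] at h1 ⊢
    obtain ⟨κ, hκ⟩ : ∃ κ, κ = ka J F (v.y J F ω) := ⟨_, rfl⟩
    rw [← hκ] at h1 ⊢
    obtain ⟨a, ha⟩ : ∃ a : ℝ, a = (fl (v.B J) (F.x1 (v.B J) ω) n : ℝ) := ⟨_, rfl⟩
    obtain ⟨c, hc⟩ : ∃ c : ℝ, c = (fl (v.B J) (F.x1 (v.B J) ω) k : ℝ) := ⟨_, rfl⟩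
    rw [← ha, ← hc] at h1 ⊢
    have pM : (0 : ℝ) < 2 ^ M J := by positivity
    have pB : (0 : ℝ) < 2 ^ v.B J := by positivity
    have e2 : F.x ω n - (κ * F.x ω k + ((a - κ * c) / 2 ^ v.B J + 2 ^ M J / 2 ^ v.B J * g)) =
        2 ^ M J / 2 ^ v.B J * (1 / 2 ^ M J * (2 ^ v.B J * F.x ω n - a) -
          κ / 2 ^ M J * (2 ^ v.B J * F.x ω k - c) - g) := by
      field_simp
      ring
    rw [e2, abs_mul, abs_of_pos (by positivity : (0 : ℝ) < 2 ^ M J / 2 ^ v.B J)]
    refine (mul_le_mul_of_nonneg_left h1 (by positivity)).trans ?_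
    have e3 : (2 : ℝ) ^ M J / 2 ^ v.B J * (1 / 2 ^ P') = 2 ^ M J / (2 ^ (v.B J + P')) := by
      rw [pow_add]
      field_simp
    rw [e3, div_le_div_iff₀ (by positivity) (by positivity), one_mul, mul_comm]
    exact hnum

end lb

end Pool.FUL33
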