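import Pool.Agent.H33.FUL.Cla
import Pool.Agent.H45.EXA.ActR

/-!
# The greedy order and the activity of the straight images

`order`: if the numbers of the coordinates of the base are smaller than the numbers of the last
coordinate, then the last coordinate is the last one of the greedy order. `act_st`: the activity of
the straight images.
-/

set_option autoImplicit false

namespace Pool.FUL33

open Finset Real MvPolynomial
open Pool.Agent.H49.Ent Pool.Agent.H32.Dense Pool.STK Pool.KA Pool.KSAT Pool.K2S Pool.PB Pool.S6C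
open Pool.GEN Pool.REX Pool.REX83 Pool.NFT33

variable {m N J : ℕ}

/-- **The last coordinate is the last one of the greedy order.** -/
theorem order {L : Finset (Fin (N + 1)) → Fin (N + 1) → ℝ → ℝ → ℝ} {ε : Fin (N + 1) → Fin (N + 1)} (hε : Function.Bijective ε)
    {w' δ σ P : ℝ} (hg : Vgr L ε w') (hwδ : w' ≤ δ) (hδσ : δ < σ)
    (h1 : ∀ (I : Finset (Fin (N + 1))) (i : Fin N) (r : ℝ), Fin.last N ∉ I → i.castSucc ∉ I →
      r ≤ δ → L I i.castSucc w' r ≤ δ)
    (h2 : ∀ (I : Finset (Fin (N + 1))) (r : ℝ), σ ≤ L I (Fin.last N) w' r)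
    (h3 : ∀ (I : Finset (Fin (N + 1))) (r : ℝ), Fin.last N ∉ I → L I (Fin.last N) w' r ≤ P) :
    N * (1 - δ) + (1 - P) ≤ ∑ j : Fin (N + 1), (1 - vs L ε w' (j + 1)) := by
  classical
  have key : ∀ j : ℕ, j ≤ N → vs L ε w' j ≤ δ ∧ ∀ i : Fin (N + 1), (i : ℕ) < j →
      ε i ≠ Fin.last N := by
    intro j
    induction j with
    | zero => exact fun _ => ⟨hwδ, fun i hi => absurd hi (Nat.not_lt_zero _)⟩
    | succ j ih =>
      intro hj
      obtain ⟨k1, k2⟩ := ih (by omega)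
      obtain ⟨jj, hjj⟩ : ∃ jj : Fin (N + 1), (jj : ℕ) = j := ⟨⟨j, by omega⟩, rfl⟩
      have hlast : Fin.last N ∉ (Finset.Iio jj).image ε := by
        intro hc
        obtain ⟨i, hi, he⟩ := mem_image.1 hc
        have hi' : i < jj := mem_Iio.1 hi
        have hi2 : (i : ℕ) < (jj : ℕ) := hi'
        exact k2 i (by omega) he
      have hex : ∃ k : Fin (N + 1), jj ≤ k ∧ ε k ≠ Fin.last N := by
        by_cases hj1 : ε jj = Fin.last N
        · refine ⟨⟨j + 1, by omega⟩, ?_, fun hc => ?_⟩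
          · rw [Fin.le_def]
            simp only
            omega
          · have h4 := hε.1 (hj1.trans hc.symm)
            have h5 := congrArg Fin.val h4
            simp only at h5
            omega
        · exact ⟨jj, le_rfl, hj1⟩
      obtain ⟨k, hk, hkl⟩ := hex
      obtain ⟨i, hi⟩ : ∃ i : Fin N, ε k = i.castSucc :=
        ⟨(ε k).castPred hkl, (Fin.castSucc_castPred _ hkl).symm⟩
      have hni : i.castSucc ∉ (Finset.Iio jj).image ε := by
        intro hc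
        obtain ⟨l, hl, he⟩ := mem_image.1 hc
        rw [← hi] at he
        have h4 := hε.1 he
        have hl' := mem_Iio.1 hl
        rw [h4] at hl'
        exact absurd hl' (not_lt.2 hk)
      have h4 : vs L ε w' (jj + 1) ≤ δ := by
        refine (hg jj k hk).trans ?_
        unfold vn
        rw [hi]
        refine h1 _ i _ hlast hni ?_
        rw [hjj]
        exact k1
      refine ⟨by rw [hjj] at h4; exact h4, fun l hl => ?_⟩
      rcases Nat.lt_succ_iff_lt_or_eq.1 hl with hl | hl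
      · exact k2 l hl
      · intro hc
        have hlj : l = jj := Fin.ext (by omega)
        rw [hlj] at hc
        have h5 := vs_succ L ε w' jj
        unfold vn at h5
        rw [hc] at h5
        have h6 := h2 ((Finset.Iio jj).image ε) (vs L ε w' jj)
        linarith
  have hfin : ∀ i : Fin (N + 1), (i : ℕ) < N → ε i ≠ Fin.last N := (key N le_rfl).2
  have hlast : ε (Fin.last N) = Fin.last N := by
    obtain ⟨p, hp⟩ := hε.2 (Fin.last N)
    by_cases hpN : (p : ℕ) < N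
    · exact absurd hp (hfin p hpN)
    · have : p = Fin.last N := Fin.ext (by rw [Fin.val_last]; omega)
      rw [← this]
      rw [this] at hp
      rw [this]
      exact hp
  rw [Fin.sum_univ_castSucc]
  have s1 : (N : ℝ) * (1 - δ) ≤ ∑ i : Fin N, (1 - vs L ε w' ((i.castSucc : Fin (N + 1)) + 1)) := by
    have e1 : (N : ℝ) * (1 - δ) = ∑ _i : Fin N, (1 - δ) := by
      rw [Finset.sum_const, Finset.card_univ, Fintype.card_fin, nsmul_eq_mul]
    rw [e1]
    refine Finset.sum_le_sum fun i _ => ?_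
    have h4 := (key (i + 1) (by omega)).1
    have e2 : ((i.castSucc : Fin (N + 1)) : ℕ) = i := Fin.val_castSucc i
    rw [e2]
    linarith
  have s2 : vs L ε w' (((Fin.last N : Fin (N + 1)) : ℕ) + 1) ≤ P := by
    rw [vs_succ]
    unfold vn
    rw [hlast]
    refine h3 _ _ fun hc => ?_
    obtain ⟨i, hi, he⟩ := mem_image.1 hc
    have hi' : i < Fin.last N := mem_Iio.1 hi
    have hi2 : (i : ℕ) < ((Fin.last N : Fin (N + 1)) : ℕ) := hi'
    rw [Fin.val_last] at hi2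
    exact hfin i hi2 he
  linarith

section ac

variable {S : PCl m} {v : Vz m} {φ : Fin N → Fin m} {k n : Fin m} {M q : ℕ → ℕ}
  {ka : ∀ (J : ℕ) (F : Fam m J), v.κ J F → ℝ}

/-- **The activity of the straight images.** -/
theorem act_st (hpos : PosC S) {al : ℝ} (hal : 0 ≤ al) (i₀ : Fin N)
    (hst : Bas S (fun J F A => StH F v (ka J F) (M J) (q J) A)) :
    ActB (NZR S (φ i₀) (al + 1) v.b) (WyI S v (nwS v φ k n M ka)) i₀.castSucc := by
  classical
  intro x y hx hxy hy h hh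
  refine bas_wyi.2 ?_
  have hb0 := v.b0
  have hb1 := v.b1
  have hc : 0 < 1 - v.b := by linarith
  have hl2 : 0 < Real.log 2 := Real.log_pos one_lt_two
  obtain ⟨c, hcd⟩ : ∃ c, c = NR S (φ i₀) (al + 1) ((1 - v.b) * x) ((1 - v.b) * y) := ⟨_, rfl⟩
  have hx' : (0 : ℝ) ≤ x := by exact_mod_cast hx
  have hy' : (y : ℝ) ≤ 1 := by exact_mod_cast hy
  have hxy' : (x : ℝ) ≤ y := by exact_mod_cast hxy
  have h1 : VA S (φ i₀) ((1 - v.b) * x) ((1 - v.b) * y) c := by
    rw [hcd]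
    exact NR.valid hpos (by linarith) _ _
  obtain ⟨Cn, hCn⟩ : ∃ Cn : ℝ, Cn = m * k99 + ((N + 1 : ℕ) * k99 + (N + 1 : ℕ) * k99) +
    (N + 1 : ℕ) * Real.log 2 * 4 + |c / (1 - v.b) - h| * Real.log 2 := ⟨_, rfl⟩
  have hh' : 0 < h * (1 - v.b) / 2 := by positivity
  obtain ⟨J₁, hJ₁⟩ := bgJ (a := h * (1 - v.b) / 2 * Real.log 2) (by positivity) Cn
  have hpB : Bas S (fun _ F A => 0 < Pe F.p A) :=
    ⟨1, one_pos, 0, fun J _ F A hA => hpos 1 J F A one_pos hA⟩
  refine (((h1 _ hh').and hst).and hpB).mono J₁ ?_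
  rintro J hJ F A ⟨⟨h2, h3⟩, hA⟩
  have hq := isLaw_cond F.isLaw hA
  have h0 := hq.nonneg
  have hJ0 : (0 : ℝ) ≤ J := Nat.cast_nonneg J
  have g1 := hJ₁ J hJ
  obtain ⟨j1, j2⟩ := jw v J
  obtain ⟨a, ha⟩ : ∃ a : ℕ, a = ⌊(1 - v.b) * x * (J : ℝ)⌋₊ := ⟨_, rfl⟩
  obtain ⟨b, hb⟩ : ∃ b : ℕ, b = ⌊(1 - v.b) * y * (J : ℝ)⌋₊ := ⟨_, rfl⟩
  rw [← ha, ← hb] at h2
  have hab : a ≤ b := by
    rw [ha, hb]
    exact Nat.floor_le_floor (mul_le_mul_of_nonneg_right
      (mul_le_mul_of_nonneg_left hxy' hc.le) hJ0)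
  have k1 : CH (Pool.Agent.H49.Ent.cond F.p A True) (fun ω => F.D b ω (φ i₀))
      (fun ω => (F.D a ω, (F.X J ω, F.W ω))) ≤ blk F {φ i₀} A a b := by
    unfold blk
    refine CH_mono_left h0 fun ω ω' _ _ e => ?_
    have e1 := congrFun (Prod.ext_iff.1 e).1 (φ i₀)
    unfold prjK at e1
    simpa using e1
  have k2 := blk_winI (h3.imA (φ := φ) (k := k) (n := n) a i₀) hA hab le_rfl
  have k3 : CH (Pool.Agent.H49.Ent.cond F.p A True) (v.y J F)
      (fun ω => (F.D a ω, (F.X J ω, F.W ω))) = 0 := by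
    refine CH_eq_zero h0 fun ω ω' hω hω' e => ?_
    have e1 := Prod.ext_iff.1 (Prod.ext_iff.1 e).2
    refine h3.cl ω ω' (of_condp hω) (of_condp hω') ?_
    exact Prod.ext e1.1 (Prod.ext (Prod.ext_iff.1 e1.2).1 (Prod.ext_iff.1 e1.2).2)
  have k4 := CH_nonneg h0 (v.y J F) (fun ω => (F.D b ω, (F.X J ω, F.W ω)))
  obtain ⟨a', ha'⟩ : ∃ a' : ℕ, a' = ⌊((x : ℚ) : ℝ) * ((J - v.B J : ℕ) : ℝ)⌋₊ := ⟨_, rfl⟩
  obtain ⟨b', hb'⟩ : ∃ b' : ℕ, b' = ⌊((y : ℚ) : ℝ) * ((J - v.B J : ℕ) : ℝ)⌋₊ := ⟨_, rfl⟩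
  have near : ∀ z : ℝ, 0 ≤ z → z ≤ 1 → |((⌊(1 - v.b) * z * J⌋₊ : ℕ) : ℝ) -
      (⌊z * ((J - v.B J : ℕ) : ℝ)⌋₊ : ℕ)| ≤ 2 := by
    intro z hz0 hz1
    have a1 : (⌊(1 - v.b) * z * J⌋₊ : ℝ) ≤ (1 - v.b) * z * J := Nat.floor_le (by positivity)
    have a2 : (1 - v.b) * z * J - 1 < (⌊(1 - v.b) * z * J⌋₊ : ℝ) := Nat.sub_one_lt_floor _
    have a3 : (⌊z * ((J - v.B J : ℕ) : ℝ)⌋₊ : ℝ) ≤ z * ((J - v.B J : ℕ) : ℝ) :=
      Nat.floor_le (by positivity)
    have a4 : z * ((J - v.B J : ℕ) : ℝ) - 1 < (⌊z * ((J - v.B J : ℕ) : ℝ)⌋₊ : ℝ) :=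
      Nat.sub_one_lt_floor _
    have a5 : z * ((1 - v.b) * J) ≤ z * ((J - v.B J : ℕ) : ℝ) := mul_le_mul_of_nonneg_left j1 hz0
    have a6 : z * ((J - v.B J : ℕ) : ℝ) ≤ z * ((1 - v.b) * J + 1) :=
      mul_le_mul_of_nonneg_left j2 hz0
    have e1 : z * ((1 - v.b) * J + 1) = (1 - v.b) * z * J + z := by ring
    have e2 : z * ((1 - v.b) * J) = (1 - v.b) * z * J := by ring
    rw [abs_le]
    constructor <;> linarith
  have k5 := blk_near (F := winI v (nwS v φ k n M ka) F) hA {i₀.castSucc} a a' b b'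
  have k6 : |(a : ℝ) - a'| + |(b : ℝ) - b'| ≤ 4 := by
    have n1 := near x hx' (hxy'.trans hy')
    have n2 := near y (hx'.trans hxy') hy'
    rw [← ha, ← ha'] at n1
    rw [← hb, ← hb'] at n2
    linarith
  have k7 : ((N + 1 : ℕ) : ℝ) * Real.log 2 * (|(a : ℝ) - a'| + |(b : ℝ) - b'|) ≤
      (N + 1 : ℕ) * Real.log 2 * 4 := mul_le_mul_of_nonneg_left k6 (by positivity)
  have k8 : blk (winI v (nwS v φ k n M ka) F) {i₀.castSucc} A a' b' ≤
      CH (Pool.Agent.H49.Ent.cond F.p A True)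
        (fun ω => (winI v (nwS v φ k n M ka) F).D b' ω i₀.castSucc)
        (fun ω => ((winI v (nwS v φ k n M ka) F).D a' ω,
          ((winI v (nwS v φ k n M ka) F).X (J - v.B J) ω,
            (winI v (nwS v φ k n M ka) F).W ω))) := by
    unfold blk
    refine CH_mono_left h0 fun ω ω' _ _ e => ?_
    have e1 := (Prod.ext_iff.1 e).1
    funext i
    unfold prjK
    by_cases hi : i ∈ ({i₀.castSucc} : Finset (Fin (N + 1)))
    · rw [if_pos hi, if_pos hi, mem_singleton.1 hi]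
      exact e1
    · rw [if_neg hi, if_neg hi]
  show (NZR S (φ i₀) (al + 1) v.b x y - h) * Real.log 2 * ((J - v.B J : ℕ) : ℝ) ≤
    CH (Pool.Agent.H49.Ent.cond F.p A True)
      (fun ω => (winI v (nwS v φ k n M ka) F).D ⌊((y : ℚ) : ℝ) * ((J - v.B J : ℕ) : ℝ)⌋₊ ω
        i₀.castSucc)
      (fun ω => ((winI v (nwS v φ k n M ka) F).D ⌊((x : ℚ) : ℝ) * ((J - v.B J : ℕ) : ℝ)⌋₊ ω,
        ((winI v (nwS v φ k n M ka) F).X (J - v.B J) ω,
          (winI v (nwS v φ k n M ka) F).W ω)))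
  rw [← ha', ← hb']
  have e1 : NZR S (φ i₀) (al + 1) v.b x y = c / (1 - v.b) := by
    rw [hcd]
    rfl
  rw [e1]
  have k9 : (c / (1 - v.b) - h) * Real.log 2 * ((J - v.B J : ℕ) : ℝ) ≤
      (c - h * (1 - v.b)) * Real.log 2 * J + |c / (1 - v.b) - h| * Real.log 2 := by
    obtain ⟨d, hd⟩ : ∃ d, d = c / (1 - v.b) - h := ⟨_, rfl⟩
    have e2 : c - h * (1 - v.b) = d * (1 - v.b) := by
      rw [hd]
      field_simp
    rw [← hd, e2]
    have m1 := jmul v (-d) J
    rw [abs_neg] at m1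
    have m2 : d * ((J - v.B J : ℕ) : ℝ) ≤ d * (1 - v.b) * J + |d| := by linarith
    have m3 := mul_le_mul_of_nonneg_right m2 hl2.le
    have e3 : d * Real.log 2 * ((J - v.B J : ℕ) : ℝ) = d * ((J - v.B J : ℕ) : ℝ) * Real.log 2 := by
      ring
    have e4 : (d * (1 - v.b) * J + |d|) * Real.log 2 = d * (1 - v.b) * Real.log 2 * J +
      |d| * Real.log 2 := by ring
    linarith
  have k10 : (c - h * (1 - v.b)) * Real.log 2 * J = (c - h * (1 - v.b) / 2) * Real.log 2 * J -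
    h * (1 - v.b) / 2 * Real.log 2 * J := by ring
  rw [k3] at k2
  linarith

end ac

end Pool.FUL33
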