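import Pool.Agent.H33.FUL.Fin

/-!
# Fullness of the straight image, from the threshold of the target

`fulI_thr`: the coordinates `c 0, …, c (N - 1)` are the base, `c N` is the coordinate of the slope,
`c (N + 1)` is the target with the threshold `P`.
-/

set_option autoImplicit false

namespace Pool.FUL33

open Finset Real MvPolynomial
open Pool.Agent.H49.Ent Pool.Agent.H32.Dense Pool.STK Pool.KA Pool.KSAT Pool.K2S Pool.PB Pool.S6C
open Pool.GEN Pool.TOP Pool.ONE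
open Pool.UNJ (ceI)
open Pool.LBT (ThrOf)

variable {m N J : ℕ}

/-- **Fullness of the straight image**, from the threshold of the target. -/
theorem fulI_thr (hF : FZX (N + 1)) {S : PCl m} {C₀ : ℝ} (hC₀ : 0 ≤ C₀) (htm : TmC S C₀)
    {N₀ : ℚ → ℚ → ℝ} {al : ℝ} {g₀ : ℝ → ℝ} (hal : 0 < al)
    (hg₀ : ∀ ε : ℝ, 0 < ε → 0 < g₀ ε) (hM : ActM N₀ al g₀) {c : ℕ → Fin m}
    (hc : ∀ i ≤ N + 1, ∀ j ≤ N + 1, c i = c j → i = j) (hN : 0 < N) (hB : ActB N₀ S (c 0))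
    {w s : ℝ} (hw0 : 0 ≤ w) (hw1 : w < 1) (hs0 : 0 ≤ s)
    (hful : ∀ δ : ℝ, 0 < δ → ∃ w₂ u : ℝ, w < w₂ ∧ w₂ ≤ u ∧ u < w + δ ∧
      Ful S ((range N).image c) w₂ u)
    {P : ℝ → ℝ → ℝ} (hT : ThrOf (tgs (c (N + 1))) S (fun _ => P))
    (hP : ∀ μ : ℝ, 0 < μ → ∃ a : ℝ, w < a ∧ a ≤ 1 ∧ P a a < s + μ)
    (x₀ : ℝ) {r : ℝ} (hr : r ≤ 1 - max x₀ 0) {ρ : ℝ} (hρ : 0 < ρ) :
    ∃ e : ℝ, 0 < e ∧ Bas S (fun J F A => ∀ (V : Type) (z : PtT F → V) (z' : LnT F → V)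
      (ka : V → ℝ), (∀ ω, A ω → z (ptr F J ω) = z' (slam F ⌊w * J⌋₊ ω)) →
      (∀ ω, A ω → |ka (z' (slam F ⌊w * J⌋₊ ω))| ≤ (2 : ℝ) ^ ((max x₀ 0 + e) * J)) →
      (r - s - ρ) * Real.log 2 * J ≤ CH (Pool.Agent.H49.Ent.cond F.p A True)
        (fun ω => ⌊(2 : ℝ) ^ ⌊r * J⌋₊ *
          (F.x ω (c (N + 1)) - ka (z' (slam F ⌊w * J⌋₊ ω)) * F.x ω (c N))⌋)
        (fun ω => (ceI ((range N).image c) (fun _ => J) (F.x ω),
          (z' (slam F ⌊w * J⌋₊ ω), F.W ω)))) := by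
  classical
  obtain ⟨φ, hφ⟩ : ∃ φ : Fin N → Fin m, φ = fun i : Fin N => c (i : ℕ) := ⟨_, rfl⟩
  have hI : univ.image φ = (range N).image c := by
    ext y
    rw [mem_image, mem_image]
    constructor
    · rintro ⟨i, -, hi⟩
      rw [hφ] at hi
      exact ⟨i, mem_range.2 i.2, hi⟩
    · rintro ⟨i, hi, rfl⟩
      refine ⟨⟨i, mem_range.1 hi⟩, mem_univ _, ?_⟩
      rw [hφ]
  have hinj : Function.Injective φ := by
    intro i j hij
    rw [hφ] at hij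
    exact Fin.ext (hc i (by omega) j (by omega) hij)
  have hn : c (N + 1) ∉ bsk φ (c N) := by
    unfold bsk
    rw [mem_insert, hI, mem_image]
    rintro (h | ⟨i, hi, h⟩)
    · have := hc (N + 1) le_rfl N (by omega) h
      omega
    · have h1 := mem_range.1 hi
      have := hc i (by omega) (N + 1) le_rfl h
      omega
  rw [← hI] at hful ⊢
  have h0 : φ ⟨0, hN⟩ = c 0 := by rw [hφ]
  refine fulI hF hC₀ htm hal hg₀ hM hinj ⟨0, hN⟩ (by rw [h0]; exact hB) (k := c N)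
    (n := c (N + 1)) hw0 hw1 hs0 hful (fun μ hμ hμ1 => ?_) (le_max_right x₀ 0) hr hρ
  obtain ⟨a, ha, ha1, haP⟩ := hP μ hμ
  refine ⟨(w + a) / 2, by linarith, by linarith, fun K => ?_⟩
  exact lbr_no hT le_rfl hn (by linarith) (by linarith) ha1 haP hμ1 K

end Pool.FUL33
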