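import Pool.Agent.H89.IMG.Lbi

/-!
# Straight images of the windows of a family

`nwS v φ k n M ka`: the new lines of the windows are the lines of the coordinates `φ i` and the line
of `(x n - κ x k) / 2 ^ M`, where the slope `κ` is a function of the visible variable.
`StH.imA`: the digits of the new lines; `StH.part`: on a large part of the event the point
determines the point of the window with new lines.
-/

set_option autoImplicit false

namespace Pool.FUL33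

open Finset Real
open Pool.Agent.H49.Ent Pool.Agent.H32.Dense Pool.STK Pool.KA Pool.KSAT Pool.K2S Pool.PB Pool.S6C
open Pool.GEN Pool.REX Pool.REX83 Pool.NFT33

variable {m N J : ℕ}

/-- The straight coordinates. -/
noncomputable def lin (φ : Fin N → Fin m) (k n : Fin m) (al be : ℝ) (x : Fin m → ℝ) :
    Fin (N + 1) → ℝ :=
  Fin.snoc (α := fun _ => ℝ) (fun i => x (φ i)) (al * x n - be * x k)

section lin

variable (φ : Fin N → Fin m) (k n : Fin m) (al be : ℝ) (x : Fin m → ℝ)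

theorem lin_cast (i : Fin N) : lin φ k n al be x i.castSucc = x (φ i) := by
  unfold lin
  exact Fin.snoc_castSucc (α := fun _ => ℝ) _ _ i

theorem lin_last : lin φ k n al be x (Fin.last N) = al * x n - be * x k := by
  unfold lin
  exact Fin.snoc_last (α := fun _ => ℝ) _ _

end lin

/-- **The new lines of the straight image.** -/
noncomputable def nwS (v : Vz m) (φ : Fin N → Fin m) (k n : Fin m) (M : ℕ → ℕ)
    (ka : ∀ (J : ℕ) (F : Fam m J), v.κ J F → ℝ) : Nw v (N + 1) := fun J F s =>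
  (lin φ k n (1 / 2 ^ M J) (ka J F s.2.1 / 2 ^ M J) s.1.1,
    lin φ k n (1 / 2 ^ M J) (ka J F s.2.1 / 2 ^ M J) s.1.2)

/-- The slope is small on the event, and the visible variable is visible at the point. -/
structure StH (F : Fam m J) (v : Vz m) (ka : v.κ J F → ℝ) (M q : ℕ) (A : F.Ω → Prop) : Prop where
  kb : ∀ ω, A ω → 2 ^ (q + 1) * (1 + |ka (v.y J F ω)|) ≤ (2 : ℝ) ^ M
  cl : ∀ ω ω', A ω → A ω' → ptr F J ω = ptr F J ω' → v.y J F ω = v.y J F ω'

section st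

variable {F : Fam m J} {v : Vz m} {φ : Fin N → Fin m} {k n : Fin m} {M : ℕ → ℕ}
  {ka : ∀ (J : ℕ) (F : Fam m J), v.κ J F → ℝ} {q : ℕ} {A : F.Ω → Prop}

theorem StH.sub {B : F.Ω → Prop} (h : StH F v (ka J F) (M J) q A) (hB : Sub B A) :
    StH F v (ka J F) (M J) q B :=
  ⟨fun ω hω => h.kb ω (hB ω hω), fun ω ω' h1 h2 => h.cl ω ω' (hB ω h1) (hB ω' h2)⟩

theorem win_le2 (ω : F.Ω) (i : Fin m) : |(v.win F).x ω i| ≤ 2 := by
  have h1 : (v.win F).x ω i = (v.win F).u ω i + (v.win F).t ω * (v.win F).d ω i := rfl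
  have h2 : (v.win F).u ω i = Int.fract (2 ^ v.B J * F.x1 (v.B J) ω i) := rfl
  have h3 := Int.fract_nonneg ((2 : ℝ) ^ v.B J * F.x1 (v.B J) ω i)
  have h4 := Int.fract_lt_one ((2 : ℝ) ^ v.B J * F.x1 (v.B J) ω i)
  have h5 : (v.win F).t ω = ((F.T ω % 2 ^ (J - v.B J) : ℕ) : ℝ) / 2 ^ (J - v.B J) := rfl
  have h6 : ((F.T ω % 2 ^ (J - v.B J) : ℕ) : ℝ) ≤ 2 ^ (J - v.B J) := by
    exact_mod_cast (Nat.mod_lt (F.T ω) (by positivity : 0 < 2 ^ (J - v.B J))).le
  have h7 : 0 ≤ (v.win F).t ω := by rw [h5]; positivity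
  have h8 : (v.win F).t ω ≤ 1 := by
    rw [h5, div_le_one (by positivity)]
    exact h6
  have h9 := (v.win F).dir ω i
  have h10 : |(v.win F).t ω * (v.win F).d ω i| ≤ 1 * 1 := by
    rw [abs_mul, abs_of_nonneg h7]
    exact mul_le_mul h8 h9 (abs_nonneg _) zero_le_one
  rw [h1]
  rw [← h2] at h3 h4
  rw [abs_le] at h10 ⊢
  constructor <;> linarith [h10.1, h10.2]

theorem nwS_fst (ω : F.Ω) (i : Fin (N + 1)) :
    (nwS v φ k n M ka J F ((v.win F).l ω, (v.win F).Z ω)).1 i =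
      lin φ k n (1 / 2 ^ M J) (ka J F (v.y J F ω) / 2 ^ M J) ((v.win F).u ω) i := rfl

theorem nwS_snd (ω : F.Ω) (i : Fin (N + 1)) :
    (nwS v φ k n M ka J F ((v.win F).l ω, (v.win F).Z ω)).2 i =
      lin φ k n (1 / 2 ^ M J) (ka J F (v.y J F ω) / 2 ^ M J) (F.d ω) i := rfl

/-- The size of the last coordinate. -/
theorem StH.small (h : StH F v (ka J F) (M J) q A) {ω : F.Ω} (hω : A ω) {a b c : ℝ}
    (ha : |a| ≤ c) (hb : |b| ≤ c) :
    |1 / 2 ^ M J * a - ka J F (v.y J F ω) / 2 ^ M J * b| ≤ c / 2 ^ (q + 1) := by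
  obtain ⟨κ, hκ⟩ : ∃ κ, κ = ka J F (v.y J F ω) := ⟨_, rfl⟩
  have h1 := h.kb ω hω
  rw [← hκ] at h1 ⊢
  have pM : (0 : ℝ) < 2 ^ M J := by positivity
  have pq : (0 : ℝ) < 2 ^ (q + 1) := by positivity
  have hc : 0 ≤ c := (abs_nonneg a).trans ha
  have e1 : 1 / 2 ^ M J * a - κ / 2 ^ M J * b = (a - κ * b) / 2 ^ M J := by ring
  have h2 : |a - κ * b| ≤ c * (1 + |κ|) := by
    have h3 : |κ * b| ≤ |κ| * c := by
      rw [abs_mul]
      exact mul_le_mul_of_nonneg_left hb (abs_nonneg κ)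
    have h4 := abs_sub a (κ * b)
    have h5 : c * (1 + |κ|) = c + |κ| * c := by ring
    rw [h5]
    linarith
  rw [e1, abs_div, abs_of_pos pM, div_le_div_iff₀ pM pq]
  have h6 : |a - κ * b| * 2 ^ (q + 1) ≤ c * (1 + |κ|) * 2 ^ (q + 1) :=
    mul_le_mul_of_nonneg_right h2 pq.le
  have h7 : c * (2 ^ (q + 1) * (1 + |κ|)) ≤ c * 2 ^ M J := mul_le_mul_of_nonneg_left h1 hc
  have h8 : c * (1 + |κ|) * 2 ^ (q + 1) = c * (2 ^ (q + 1) * (1 + |κ|)) := by ring
  linarith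

/-- The velocities of the new lines are not cut. -/
theorem StH.le1 (h : StH F v (ka J F) (M J) q A) {ω : F.Ω} (hω : A ω) (i : Fin (N + 1)) :
    |(nwS v φ k n M ka J F ((v.win F).l ω, (v.win F).Z ω)).2 i| ≤ 1 := by
  rw [nwS_snd]
  refine Fin.lastCases ?_ (fun i => ?_) i
  · rw [lin_last]
    refine (h.small hω (F.dir ω n) (F.dir ω k)).trans ?_
    rw [div_le_one (by positivity)]
    exact one_le_pow₀ (by norm_num)
  · rw [lin_cast]
    exact F.dir ω (φ i)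

theorem StH.d (h : StH F v (ka J F) (M J) q A) {ω : F.Ω} (hω : A ω) (i : Fin (N + 1)) :
    (winI v (nwS v φ k n M ka) F).d ω i =
      lin φ k n (1 / 2 ^ M J) (ka J F (v.y J F ω) / 2 ^ M J) (F.d ω) i := by
  have h1 := img_d (v.win F) (nwS v φ k n M ka J F) (h.le1 (φ := φ) (k := k) (n := n) hω i)
  rw [nwS_snd] at h1
  exact h1

theorem StH.db (h : StH F v (ka J F) (M J) q A) {ω : F.Ω} (hω : A ω) (i : Fin N) :
    (winI v (nwS v φ k n M ka) F).d ω i.castSucc = F.d ω (φ i) := by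
  rw [h.d hω, lin_cast]

theorem StH.x (h : StH F v (ka J F) (M J) q A) {ω : F.Ω} (hω : A ω) (i : Fin (N + 1)) :
    (winI v (nwS v φ k n M ka) F).x ω i =
      lin φ k n (1 / 2 ^ M J) (ka J F (v.y J F ω) / 2 ^ M J) ((v.win F).x ω) i := by
  have h1 := img_x (v.win F) (nwS v φ k n M ka J F) (h.le1 (φ := φ) (k := k) (n := n) hω i)
  have h2 : (winI v (nwS v φ k n M ka) F).x ω i =
      (img (v.win F) (nwS v φ k n M ka J F)).x ω i := rfl
  rw [h2, h1, nwS_fst, nwS_snd]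
  have hx : ∀ l, (v.win F).x ω l = (v.win F).u ω l + (v.win F).t ω * F.d ω l := fun l => rfl
  refine Fin.lastCases ?_ (fun i => ?_) i
  · rw [lin_last, lin_last, lin_last, hx, hx]
    ring
  · rw [lin_cast, lin_cast, lin_cast, hx]

theorem StH.xb (h : StH F v (ka J F) (M J) q A) {ω : F.Ω} (hω : A ω) (i : Fin N) :
    (winI v (nwS v φ k n M ka) F).x ω i.castSucc = (v.win F).x ω (φ i) := by
  rw [h.x hω, lin_cast]

theorem StH.xl (h : StH F v (ka J F) (M J) q A) {ω : F.Ω} (hω : A ω) :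
    (winI v (nwS v φ k n M ka) F).x ω (Fin.last N) = 1 / 2 ^ M J * (v.win F).x ω n -
      ka J F (v.y J F ω) / 2 ^ M J * (v.win F).x ω k := by
  rw [h.x hω, lin_last]

theorem StH.xl_le (h : StH F v (ka J F) (M J) q A) {ω : F.Ω} (hω : A ω) :
    |(winI v (nwS v φ k n M ka) F).x ω (Fin.last N)| ≤ 1 / 2 ^ q := by
  rw [h.xl hω]
  refine (h.small hω (win_le2 ω n) (win_le2 ω k)).trans (le_of_eq ?_)
  rw [pow_succ]
  field_simp

theorem StH.dl_le (h : StH F v (ka J F) (M J) q A) {ω : F.Ω} (hω : A ω) :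
    |(winI v (nwS v φ k n M ka) F).d ω (Fin.last N)| ≤ 1 / 2 ^ (q + 1) := by
  rw [h.d hω, lin_last]
  exact h.small hω (F.dir ω n) (F.dir ω k)

theorem win_fl {ω ω' : F.Ω} (h : (v.win F).Z ω = (v.win F).Z ω') :
    fl (v.B J) (F.x1 (v.B J) ω) = fl (v.B J) (F.x1 (v.B J) ω') := by
  have h2 : (v.y J F ω, F.c (v.B J) ω) = (v.y J F ω', F.c (v.B J) ω') := h
  have h3 : F.c (v.B J) ω = F.c (v.B J) ω' := congrArg Prod.snd h2
  have h4 : (F.T1 (v.B J) ω, fl (v.B J) (F.x1 (v.B J) ω)) =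
    (F.T1 (v.B J) ω', fl (v.B J) (F.x1 (v.B J) ω')) := congrArg Prod.fst h3
  exact congrArg Prod.snd h4

theorem wy {ω ω' : F.Ω} (h : (v.win F).Z ω = (v.win F).Z ω') : v.y J F ω = v.y J F ω' := by
  have a2 : (v.y J F ω, F.c (v.B J) ω) = (v.y J F ω', F.c (v.B J) ω') := h
  exact congrArg Prod.fst a2

/-- Differences of the positions in the window. -/
theorem win_sub {ω ω' : F.Ω} (h : (v.win F).Z ω = (v.win F).Z ω') (i : Fin m) :
    2 ^ (J - v.B J) * ((v.win F).x ω i - (v.win F).x ω' i) = 2 ^ J * F.x ω i - 2 ^ J * F.x ω' i := by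
  have hB := (v.floor_le J).1
  have e2 : (2 : ℝ) ^ J = 2 ^ (J - v.B J) * 2 ^ v.B J := by rw [← pow_add, Nat.sub_add_cancel hB]
  rw [win_x, win_x, win_fl h, e2]
  ring

theorem floor_49 {a b : ℝ} (h : |a - b| ≤ 1) : |⌊a⌋ - ⌊b⌋| ≤ 49 := by
  rw [abs_le] at h
  have c1 := Int.floor_le a
  have c2 := Int.lt_floor_add_one a
  have c3 := Int.floor_le b
  have c4 := Int.lt_floor_add_one b
  have key2 : |((⌊a⌋ - ⌊b⌋ : ℤ) : ℝ)| ≤ 49 := by
    rw [abs_le]
    push_cast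
    constructor <;> linarith [h.1, h.2]
  exact_mod_cast key2

/-- Two samples with the same point: the points of the windows with new lines. -/
theorem StH.nX (h : StH F v (ka J F) (M J) q A) {ω ω' : F.Ω} (hω : A ω) (hω' : A ω')
    (hZ : (v.win F).Z ω = (v.win F).Z ω') (hX : F.X J ω = F.X J ω') (i : Fin (N + 1)) :
    |(winI v (nwS v φ k n M ka) F).X (J - v.B J) ω i -
      (winI v (nwS v φ k n M ka) F).X (J - v.B J) ω' i| ≤ 49 := by
  have hx : ∀ l, |2 ^ (J - v.B J) * ((v.win F).x ω l - (v.win F).x ω' l)| ≤ 1 := by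
    intro l
    rw [win_sub hZ]
    have hk : ⌊(2 : ℝ) ^ J * F.x ω l⌋ = ⌊(2 : ℝ) ^ J * F.x ω' l⌋ := congrFun hX l
    exact (Int.abs_sub_lt_one_of_floor_eq_floor hk).le
  have hy : v.y J F ω = v.y J F ω' := wy hZ
  refine floor_49 ?_
  rw [← mul_sub]
  refine Fin.lastCases ?_ (fun i => ?_) i
  · rw [h.xl hω, h.xl hω', ← hy]
    have e1 : (2 : ℝ) ^ (J - v.B J) * (1 / 2 ^ M J * (v.win F).x ω n -
        ka J F (v.y J F ω) / 2 ^ M J * (v.win F).x ω k - (1 / 2 ^ M J * (v.win F).x ω' n -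
        ka J F (v.y J F ω) / 2 ^ M J * (v.win F).x ω' k)) =
        1 / 2 ^ M J * (2 ^ (J - v.B J) * ((v.win F).x ω n - (v.win F).x ω' n)) -
        ka J F (v.y J F ω) / 2 ^ M J *
          (2 ^ (J - v.B J) * ((v.win F).x ω k - (v.win F).x ω' k)) := by ring
    rw [e1]
    refine (h.small hω (hx n) (hx k)).trans ?_
    rw [div_le_one (by positivity)]
    exact one_le_pow₀ (by norm_num)
  · rw [h.xb hω, h.xb hω']
    exact hx (φ i)

/-- Two samples with the same digits of the velocities. -/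
theorem StH.nD (h : StH F v (ka J F) (M J) q A) {ω ω' : F.Ω} (hω : A ω) (hω' : A ω') {l : ℕ}
    (hy : v.y J F ω = v.y J F ω') (hD : F.D l ω = F.D l ω') (i : Fin (N + 1)) :
    |(winI v (nwS v φ k n M ka) F).D l ω i - (winI v (nwS v φ k n M ka) F).D l ω' i| ≤ 49 := by
  have hx : ∀ j, |2 ^ l * (F.d ω j - F.d ω' j)| ≤ 1 := by
    intro j
    rw [mul_sub]
    have hk : ⌊(2 : ℝ) ^ l * F.d ω j⌋ = ⌊(2 : ℝ) ^ l * F.d ω' j⌋ := congrFun hD j
    exact (Int.abs_sub_lt_one_of_floor_eq_floor hk).le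
  refine floor_49 ?_
  rw [← mul_sub]
  refine Fin.lastCases ?_ (fun i => ?_) i
  · rw [h.d hω, h.d hω', lin_last, lin_last, ← hy]
    have e1 : (2 : ℝ) ^ l * (1 / 2 ^ M J * F.d ω n -
        ka J F (v.y J F ω) / 2 ^ M J * F.d ω k - (1 / 2 ^ M J * F.d ω' n -
        ka J F (v.y J F ω) / 2 ^ M J * F.d ω' k)) =
        1 / 2 ^ M J * (2 ^ l * (F.d ω n - F.d ω' n)) -
        ka J F (v.y J F ω) / 2 ^ M J * (2 ^ l * (F.d ω k - F.d ω' k)) := by ring
    rw [e1]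
    refine (h.small hω (hx n) (hx k)).trans ?_
    rw [div_le_one (by positivity)]
    exact one_le_pow₀ (by norm_num)
  · rw [h.db hω, h.db hω']
    exact hx (φ i)

/-- **The digits of the new lines.** -/
theorem StH.imA (h : StH F v (ka J F) (M J) q A) (k₁ : ℕ) (i₀ : Fin N) :
    ImA F v (nwS v φ k n M ka) (φ i₀) i₀.castSucc k₁ A :=
  ⟨fun _ hω => h.db hω i₀, fun _ _ hω hω' hZ _ hX i => h.nX hω hω' hZ hX i,
    fun _ _ hω hω' hZ _ _ _ _ hD i => h.nD hω hω' (wy hZ) hD i⟩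

/-- **A large part of the event**, on which the point determines the point of the window with new
lines. -/
theorem StH.part (h : StH F v (ka J F) (M J) q A) :
    ∃ B : F.Ω → Prop, Sub B A ∧ Pe F.p A ≤ (99 ^ m * 99 ^ (N + 1) : ℝ) * Pe F.p B ∧
      ∀ ω ω', B ω → B ω' → ptr F J ω = ptr F J ω' →
        ptr (winI v (nwS v φ k n M ka) F) (J - v.B J) ω =
          ptr (winI v (nwS v φ k n M ka) F) (J - v.B J) ω' := by
  have hB := (v.floor_le J).1
  have h99 : ((2 : ℝ) * (49 : ℕ) + 1) = 99 := by norm_num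
  -- the cells
  obtain ⟨B₁, b1, b2, φ₁, b3⟩ := Pool.S6K.exact_label F.isLaw 49 (ptr F J)
    (fun ω => fl (v.B J) (F.x1 (v.B J) ω)) A (fun ω ω' _ _ hp i => by
      have h1 := Prod.ext_iff.mp hp
      have h2 := Prod.ext_iff.mp h1.2
      exact_mod_cast x1_near F hB h1.1 h2.1 i)
  have hZ : ∀ ω ω', B₁ ω → B₁ ω' → ptr F J ω = ptr F J ω' →
      (v.win F).Z ω = (v.win F).Z ω' := by
    intro ω ω' hω hω' hp
    have h1 := Prod.ext_iff.mp hp
    have h2 := Prod.ext_iff.mp h1.2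
    have hT : F.T ω = F.T ω' := h2.1
    have hx : fl (v.B J) (F.x1 (v.B J) ω) = fl (v.B J) (F.x1 (v.B J) ω') := by
      rw [b3 ω hω, b3 ω' hω', hp]
    refine Prod.ext (h.cl ω ω' (b1 ω hω) (b1 ω' hω') hp) ?_
    show F.c (v.B J) ω = F.c (v.B J) ω'
    unfold Fam.c
    have c1 : F.T1 (v.B J) ω = F.T1 (v.B J) ω' := by
      unfold Fam.T1
      rw [hT]
    have hZ' : F.Z ω = F.Z ω' := h2.2
    rw [c1, hx, hZ']
  -- the points
  obtain ⟨B₂, b4, b5, φ₂, b6⟩ := Pool.S6K.exact_label F.isLaw 49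
    (ptr F J) (fun ω => (winI v (nwS v φ k n M ka) F).X (J - v.B J) ω) B₁
    (fun ω ω' hω hω' hp i => by
      have h1 := Prod.ext_iff.mp hp
      exact_mod_cast h.nX (b1 ω hω) (b1 ω' hω') (hZ ω ω' hω hω' hp) h1.1 i)
  rw [h99] at b2 b5
  refine ⟨B₂, fun ω hω => b1 ω (b4 ω hω), ?_, fun ω ω' hω hω' hp => ?_⟩
  · have p0 : (0 : ℝ) ≤ 99 ^ m := by positivity
    calc Pe F.p A ≤ 99 ^ m * Pe F.p B₁ := b2
      _ ≤ 99 ^ m * (99 ^ (N + 1) * Pe F.p B₂) := mul_le_mul_of_nonneg_left b5 p0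
      _ = _ := by ring
  · have h1 := Prod.ext_iff.mp hp
    have h2 := Prod.ext_iff.mp h1.2
    have hT : F.T ω = F.T ω' := h2.1
    have hZ' := hZ ω ω' (b4 ω hω) (b4 ω' hω') hp
    have hX : (winI v (nwS v φ k n M ka) F).X (J - v.B J) ω =
        (winI v (nwS v φ k n M ka) F).X (J - v.B J) ω' := by
      rw [b6 ω hω, b6 ω' hω', hp]
    refine Prod.ext hX (Prod.ext ?_ hZ')
    show F.T ω % 2 ^ (J - v.B J) = F.T ω' % 2 ^ (J - v.B J)
    rw [hT]

end st

end Pool.FUL33
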